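import Mathlib
import Pool.Agent.Y41.RM.Uni

/-!
# Forms killed by the logarithm of a unipotent operator
-/

set_option linter.unusedSectionVars false

namespace Pool.Agent.K1H15.P1

open Module Polynomial Pool.Agent.Y114.MU Pool.Agent.Y41.RM Pool.Agent.H204R3.SP
  Pool.Agent.TH118.SG

section

variable {k : Type*} [Field k] [CharZero k] {V : Type*} [AddCommGroup V] [Module k V]
  {κ : Type*} [Fintype κ] [DecidableEq κ]

/-- The polynomial `t ↦ φ ((1 + ν) ^ t v)`. -/
noncomputable def pl (φ : MultilinearMap k (fun _ : κ => V) k) (A : ℕ → End k V) (d : ℕ)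
    (v : κ → V) : k[X] :=
  ∑ r ∈ Fintype.piFinset (fun _ : κ => Finset.range d), C (φ fun l => A (r l) (v l)) *
    X ^ (∑ l, r l)

theorem pl_eval (φ : MultilinearMap k (fun _ : κ => V) k) (A : ℕ → End k V) (d : ℕ)
    (v : κ → V) (t : k) : (pl φ A d v).eval t =
      φ (fun l => (∑ i ∈ Finset.range d, (t ^ i) • A i) (v l)) := by
  classical
  simp only [pl, eval_finsetSum, eval_mul, eval_C, eval_pow, eval_X]
  have h1 : (fun l => (∑ i ∈ Finset.range d, (t ^ i) • A i) (v l)) =
      fun l => ∑ i ∈ Finset.range d, (t ^ i) • A i (v l) := by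
    funext l
    rw [LinearMap.sum_apply]
    rfl
  rw [h1, φ.map_sum_finset (fun l i => (t ^ i) • A i (v l)) (fun _ => Finset.range d)]
  refine Finset.sum_congr rfl fun r _ => ?_
  rw [φ.map_smul_univ, smul_eq_mul, Finset.prod_pow_eq_pow_sum, mul_comm]

theorem pl_one (φ : MultilinearMap k (fun _ : κ => V) k) (A : ℕ → End k V) {d : ℕ} (hd : 2 ≤ d)
    (hA0 : A 0 = 1) (v : κ → V) : (pl φ A d v).coeff 1 =
      ∑ l, φ (Function.update v l (A 1 (v l))) := by
  classical
  simp only [pl, finsetSum_coeff, coeff_C_mul, coeff_X_pow]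
  simp only [mul_ite, mul_one, mul_zero]
  rw [← Finset.sum_filter]
  have hset : (Fintype.piFinset (fun _ : κ => Finset.range d)).filter (fun r => 1 = ∑ l, r l) =
      Finset.univ.image (fun l : κ => (Pi.single l 1 : κ → ℕ)) := by
    ext r
    rw [Finset.mem_filter, Finset.mem_image]
    constructor
    · rintro ⟨-, hr⟩
      have hex : ∃ l, r l ≠ 0 := by
        by_contra hcon
        push Not at hcon
        rw [Finset.sum_eq_zero fun l _ => hcon l] at hr
        exact one_ne_zero hr
      obtain ⟨l, hl⟩ := hex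
      rw [← Finset.add_sum_erase _ _ (Finset.mem_univ l)] at hr
      have h2 : ∑ x ∈ Finset.univ.erase l, r x = 0 := by omega
      have h3 : r l = 1 := by omega
      refine ⟨l, Finset.mem_univ l, funext fun x => ?_⟩
      by_cases hx : x = l
      · subst hx
        rw [Pi.single_eq_same, h3]
      · rw [Pi.single_eq_of_ne hx]
        exact ((Finset.sum_eq_zero_iff.1 h2) x (Finset.mem_erase.2 ⟨hx, Finset.mem_univ x⟩)).symm
    · rintro ⟨l, -, rfl⟩
      refine ⟨?_, ?_⟩
      · rw [Fintype.mem_piFinset]
        intro x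
        rw [Finset.mem_range]
        by_cases hx : x = l
        · subst hx
          rw [Pi.single_eq_same]
          omega
        · rw [Pi.single_eq_of_ne hx]
          omega
      · rw [Finset.sum_pi_single', if_pos (Finset.mem_univ l)]
  rw [hset, Finset.sum_image]
  · refine Finset.sum_congr rfl fun l _ => ?_
    congr 1
    funext x
    by_cases hx : x = l
    · subst hx
      rw [Function.update_self, Pi.single_eq_same]
    · rw [Function.update_of_ne hx, Pi.single_eq_of_ne hx, hA0, Module.End.one_apply]
  · intro a _ b _ hab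
    by_contra hne
    have h2 := congrFun hab a
    simp only [Pi.single_eq_same, Pi.single_eq_of_ne hne] at h2
    exact one_ne_zero h2

/-- A form killed by the logarithm is invariant. -/
theorem fixed_of_kills (φ : MultilinearMap k (fun _ : κ => V) k) {ν : End k V} {d : ℕ}
    (hd : 2 ≤ d) (hν : ν ^ d = 0) (h : Kills (lgA d ν 1) φ) (m : ℕ) (v : κ → V) :
    φ (fun l => ((1 + ν) ^ m) (v l)) = φ v := by
  have hev : ∀ (m : ℕ) (v : κ → V), (pl φ (lgA d ν) d v).eval (m : k) =
      φ (fun l => ((1 + ν) ^ m) (v l)) := by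
    intro m v
    rw [pl_eval, lgA_pow hν m]
  have hder : ∀ v, (derivative (pl φ (lgA d ν) d v)).eval 0 = 0 := by
    intro v
    rw [← coeff_zero_eq_eval_zero, coeff_derivative, zero_add,
      pl_one φ _ hd (lgA_zero (by omega) _), h v, zero_mul]
  have hsh : ∀ (m : ℕ) (v : κ → V), (pl φ (lgA d ν) d v).comp (X + C (m : k)) =
      pl φ (lgA d ν) d (fun l => ((1 + ν) ^ m) (v l)) := by
    intro m v
    rw [← sub_eq_zero]
    refine Polynomial.eq_zero_of_infinite_isRoot _ ?_
    refine Set.infinite_of_injective_forall_mem (f := fun t : ℕ => (t : k)) Nat.cast_injective ?_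
    intro t
    change IsRoot _ _
    rw [IsRoot.def, eval_sub, eval_comp, eval_add, eval_X, eval_C, sub_eq_zero, ← Nat.cast_add,
      hev, hev]
    congr 1
    funext l
    rw [pow_add, Module.End.mul_apply]
  have hd0 : derivative (pl φ (lgA d ν) d v) = 0 := by
    refine Polynomial.eq_zero_of_infinite_isRoot _ ?_
    refine Set.infinite_of_injective_forall_mem (f := fun t : ℕ => (t : k)) Nat.cast_injective ?_
    intro t
    change IsRoot _ _
    have h1 := congrArg (fun r : k[X] => (derivative r).eval 0) (hsh t v)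
    simp only [derivative_comp, derivative_add, derivative_X, derivative_C, add_zero,
      one_mul, eval_comp, eval_add, eval_X, eval_C, zero_add, hder] at h1
    exact h1
  have h1 := Polynomial.eq_C_of_derivative_eq_zero hd0
  have h2 := hev m v
  have h3 := hev 0 v
  rw [h1, eval_C] at h2 h3
  rw [← h2, h3]
  congr 1

end

section gen

variable {K : Type} [Field K] [IsAlgClosed K] [CharZero K] {E : Type} [AddCommGroup E] [Module K E]
  [FiniteDimensional K E] {κ : Type} [Fintype κ] [DecidableEq κ]

/-- invariance under the semisimple part -/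
theorem inv_sp' {f : End K E} {Φ : MultilinearMap K (fun _ : κ => E) K} {M : ℕ}
    (hh : ∀ v, Φ (fun j => (f ^ M) (v j)) = Φ v) : ∀ v, Φ (fun j => (sp f ^ M) (v j)) = Φ v := by
  classical
  have hS : Φ.compLinearMap (fun _ => (sp f ^ M)) = Φ := by
    let b : ∀ β : K, Basis (Fin (finrank K (f.maxGenEigenspace β))) K (f.maxGenEigenspace β) :=
      fun β => Module.finBasis K _
    let B := (gen_internal f).collectedBasis b
    have hB : ∀ i, B i ∈ f.maxGenEigenspace i.1 := (gen_internal f).collectedBasis_mem b
    refine Module.Basis.ext_multilinear (fun _ => B) fun r => ?_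
    rw [MultilinearMap.compLinearMap_apply]
    have h1 : ∀ j, (sp f ^ M) (B (r j)) = ((r j).1 ^ M)⁻¹ • B (r j) := fun j =>
      sp_pow f M _ _ (gen_pow (hB (r j)) M)
    rw [funext h1, MultilinearMap.map_smul_univ]
    have h2 : Φ (fun j => B (r j)) ∈ (1 : End K K).maxGenEigenspace (∏ j, (r j).1 ^ M) :=
      multi_gen (g' := (1 : End K K)) hh (fun j => (r j).1 ^ M) fun j => gen_pow (hB (r j)) M
    by_cases h0 : Φ (fun j => B (r j)) = 0
    · rw [h0, smul_zero]
    · have h3 : (∏ j, (r j).1 ^ M) = 1 := by
        obtain ⟨n, hn⟩ := mem_gen.1 h2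
        by_contra hne
        have h4 : ∀ (n : ℕ) (x : K), ((1 - algebraMap K (End K K) (∏ j, (r j).1 ^ M)) ^ n) x =
            (1 - (∏ j, (r j).1 ^ M)) ^ n * x := by
          intro n
          induction n with
          | zero => intro x; rw [pow_zero, pow_zero, one_mul, Module.End.one_apply]
          | succ n ih =>
            intro x
            rw [pow_succ', Module.End.mul_apply, ih, LinearMap.sub_apply,
              Module.algebraMap_end_apply, Module.End.one_apply, smul_eq_mul]
            ring
        rw [h4] at hn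
        rcases mul_eq_zero.1 hn with h | h
        · exact absurd h (pow_ne_zero n (sub_ne_zero.2 (Ne.symm hne)))
        · exact h0 h
      rw [Finset.prod_inv_distrib, h3, inv_one, one_smul]
  intro v
  exact congrArg (fun F : MultilinearMap K (fun _ : κ => E) K => F v) hS

/-- the logarithm of the unipotent part kills the forms invariant under a power -/
theorem kills_un' {f : End K E} {Φ : MultilinearMap K (fun _ : κ => E) K}
    {d : ℕ} (hd : 2 ≤ d) (hν : (un f - 1) ^ d = 0) {M : ℕ} (hM : 0 < M)
    (hh : ∀ v, Φ (fun j => (f ^ M) (v j)) = Φ v) : Kills (lgA d (un f - 1) 1) Φ := by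
  have hS := inv_sp' hh
  have hU : ∀ v, Φ (fun l => (un f ^ M) (v l)) = Φ v := by
    intro v
    have h1 : (fun l => (un f ^ M) (v l)) = fun l => (f ^ M) ((sp f ^ M) (v l)) := by
      funext l
      rw [un_pow_eq, Module.End.mul_apply]
    rw [h1, hh fun l => (sp f ^ M) (v l), hS]
  have hU' : ∀ (t : ℕ) (v : κ → E), Φ (fun l => (un f ^ (M * t)) (v l)) = Φ v := by
    intro t
    induction t with
    | zero => intro v; rw [mul_zero, pow_zero]; rfl
    | succ t ih =>
      intro v
      have h1 : (fun l => (un f ^ (M * (t + 1))) (v l)) =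
          fun l => (un f ^ (M * t)) ((un f ^ M) (v l)) := by
        funext l
        rw [Nat.mul_succ, pow_add, Module.End.mul_apply]
      rw [h1, ih fun l => (un f ^ M) (v l), hU]
  refine kills_of_fixed Φ (lgA d (un f - 1)) hd (lgA_zero (by omega) _) hM ?_
  intro t v
  have e1 := lgA_pow hν (M * t)
  rw [add_sub_cancel] at e1
  rw [← e1]
  exact hU' t v

end gen

end Pool.Agent.K1H15.P1
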