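import Mathlib
import Pool.Agent.K1H15.MT.Comm
import Pool.Agent.K1H15.P1.Uni

/-!
# The forms killed by the Lie algebra of the Tate forms are Tate forms
-/

set_option linter.unusedSectionVars false

namespace Pool.Agent.K1H15.P1

open Module Finset Function Pool.Agent.H204R3.SP Pool.Agent.H204R3.GP Pool.Agent.W522.U
  Pool.Agent.TH118.CR Pool.Agent.K1H13.D4 Pool.Agent.TH118.SG Pool.Agent.TH125.Gal
  Pool.Agent.K1H13.N Pool.Agent.W516.FT Pool.Agent.K1H15.MT Pool.Agent.Y114.MU Pool.Agent.Y41.RM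

section gen

variable {K : Type} [Field K] [IsAlgClosed K] [CharZero K] {E : Type} [AddCommGroup E] [Module K E]
  [FiniteDimensional K E]

/-- Generalized eigenspaces of multiples. -/
theorem smul_gen {f : End K E} {c β : K} {x : E} (hx : x ∈ f.maxGenEigenspace β) :
    x ∈ (c • f).maxGenEigenspace (c * β) := by
  obtain ⟨n, hn⟩ := mem_gen.1 hx
  refine mem_gen.2 ⟨n, ?_⟩
  have h1 : c • f - algebraMap K (End K E) (c * β) = c • (f - algebraMap K (End K E) β) := by
    rw [smul_sub, map_mul, Algebra.smul_def c (algebraMap K (End K E) β)]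
  rw [h1, smul_pow, LinearMap.smul_apply, hn, smul_zero]

/-- The unipotent part of a multiple. -/
theorem un_smul {f : End K E} {c : K} (hc : c ≠ 0) : un (c • f) = un f := by
  refine op_ext f fun β x hx => ?_
  rw [un, un, Module.End.mul_apply, Module.End.mul_apply, sp_op f β x hx,
    sp_op (c • f) (c * β) x (smul_gen hx), map_smul, map_smul, LinearMap.smul_apply, smul_smul,
    mul_inv, mul_comm c⁻¹, mul_assoc, inv_mul_cancel₀ hc, mul_one]

/-- The unipotent part preserves the generalized eigenspaces. -/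
theorem un_mem {f : End K E} {β : K} {x : E} (hx : x ∈ f.maxGenEigenspace β) :
    un f x ∈ f.maxGenEigenspace β := by
  rw [un, Module.End.mul_apply, sp_op f β x hx, map_smul]
  exact Submodule.smul_mem _ _ (f_mem f hx)

theorem unpow_mem {f : End K E} {β : K} (n : ℕ) : ∀ {x : E}, x ∈ f.maxGenEigenspace β →
    (un f ^ n) x ∈ f.maxGenEigenspace β := by
  induction n with
  | zero => intro x hx; exact hx
  | succ n ih =>
    intro x hx
    rw [pow_succ, Module.End.mul_apply]
    exact ih (un_mem hx)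

/-- Powers on generalized eigenspaces. -/
theorem pow_eq_un {f : End K E} {β : K} (hβ : β ≠ 0) (n : ℕ) : ∀ {x : E},
    x ∈ f.maxGenEigenspace β → (f ^ n) x = β ^ n • (un f ^ n) x := by
  induction n with
  | zero => intro x _; rw [pow_zero, pow_zero, pow_zero, one_smul]
  | succ n ih =>
    intro x hx
    have h1 : f x = β • un f x := by
      rw [un, Module.End.mul_apply, sp_op f β x hx, map_smul, smul_smul, mul_inv_cancel₀ hβ,
        one_smul]
    rw [pow_succ, Module.End.mul_apply, h1, map_smul, ih (un_mem hx), smul_smul,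
      pow_succ (un f), Module.End.mul_apply, pow_succ']

end gen

variable {K : Type} [Field K] [CharZero K] [IsAlgClosed K] {X : Type} [AddCommGroup X] [Module K X]
  [FiniteDimensional K X] {Γ : Type} [Group Γ] {R : Representation K Γ X} {χ : Γ →* K}

theorem chi_ne (χ : Γ →* K) (g : Γ) : χ g ≠ 0 := by
  intro h
  have h1 : χ (g * g⁻¹) = 1 := by rw [mul_inv_cancel, map_one]
  rw [map_mul, h, zero_mul] at h1
  exact zero_ne_one h1

theorem R_inj (g : Γ) : Function.Injective (R g) := by
  intro x y hxy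
  have h1 := congrArg (R g⁻¹) hxy
  rwa [Rinv, Rinv] at h1

/-- The logarithm of the unipotent part of an element is in the Lie algebra. -/
theorem log_mem (g : Γ) {d : ℕ} (hd : 2 ≤ d) (hν : (un (R g) - 1) ^ d = 0) :
    lgA d (un (R g) - 1) 1 ∈ lieT R χ := by
  intro m φ hφ
  obtain ⟨Δ, hΔ, h⟩ := hφ
  obtain ⟨M, hM, hgM⟩ := exists_pow hΔ g
  obtain ⟨c, hc⟩ := IsAlgClosed.exists_pow_nat_eq (χ g)⁻¹ (n := 2) (by norm_num)
  have hc0 : c ≠ 0 := by
    rintro rfl
    rw [zero_pow two_ne_zero] at hc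
    exact inv_ne_zero (chi_ne χ g) hc.symm
  have h1 : un (c • R g) = un (R g) := un_smul hc0
  have h2 := kills_un' (f := c • R g) (Φ := φ) (d := d) hd (by rw [h1]; exact hν) hM (by
    intro v
    have h3 : (fun j => ((c • R g) ^ M) (v j)) = fun j => c ^ M • (R (g ^ M) (v j)) := by
      funext j
      rw [smul_pow, LinearMap.smul_apply, map_pow]
    rw [h3, MultilinearMap.map_smul_univ, h _ hgM v, Finset.prod_const, Finset.card_univ,
      Fintype.card_prod, Fintype.card_fin, Fintype.card_fin, smul_eq_mul, map_pow, ← mul_assoc]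
    have h4 : (c ^ M) ^ (m * 2) = ((c ^ 2) ^ M) ^ m := by
      rw [← pow_mul, ← pow_mul, ← pow_mul]
      ring_nf
    rw [h4, hc, ← mul_pow, ← mul_pow, inv_mul_cancel₀ (chi_ne χ g), one_pow, one_pow, one_mul])
  rw [h1] at h2
  exact h2

/-- The action on the forms. -/
noncomputable def TT (R : Representation K Γ X) (χ : Γ →* K) (m : ℕ) :
    Representation K Γ (MultilinearMap K (fun _ : Fin m × Fin 2 => X) K) where
  toFun g :=
    { toFun := fun φ => χ g ^ m • φ.compLinearMap fun _ => R g⁻¹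
      map_add' := fun φ ψ => by
        apply MultilinearMap.ext
        intro v
        simp [mul_add]
      map_smul' := fun c φ => by
        apply MultilinearMap.ext
        intro v
        simp only [smul_apply, MultilinearMap.compLinearMap_apply, smul_eq_mul,
          RingHom.id_apply]
        ring }
  map_one' := by
    apply LinearMap.ext
    intro φ
    apply MultilinearMap.ext
    intro v
    simp
  map_mul' g h := by
    apply LinearMap.ext
    intro φ
    apply MultilinearMap.ext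
    intro v
    change χ (g * h) ^ m * φ (fun l => R (g * h)⁻¹ (v l)) =
      χ g ^ m * (χ h ^ m * φ (fun l => R h⁻¹ (R g⁻¹ (v l))))
    rw [map_mul, mul_inv_rev, map_mul, mul_pow]
    simp only [Module.End.mul_apply]
    ring

theorem TT_apply (m : ℕ) (g : Γ) (φ : MultilinearMap K (fun _ : Fin m × Fin 2 => X) K)
    (v : Fin m × Fin 2 → X) : TT R χ m g φ v = χ g ^ m * φ (fun l => R g⁻¹ (v l)) := rfl

/-- The forms killed by the Lie algebra. -/
def KillM (R : Representation K Γ X) (χ : Γ →* K) (m : ℕ) :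
    Submodule K (MultilinearMap K (fun _ : Fin m × Fin 2 => X) K) where
  carrier := {φ | ∀ Y ∈ lieT R χ, Kills Y φ}
  zero_mem' := fun Y _ v => Finset.sum_eq_zero fun _ _ => rfl
  add_mem' := fun {a b} ha hb Y hY v => by
    simp only [add_apply]
    rw [Finset.sum_add_distrib, ha Y hY v, hb Y hY v, add_zero]
  smul_mem' := fun c a ha Y hY v => by
    simp only [smul_apply]
    rw [← Finset.smul_sum, ha Y hY v, smul_zero]

/-- The Tate forms. -/
def TateM (R : Representation K Γ X) (χ : Γ →* K) (m : ℕ) :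
    Submodule K (MultilinearMap K (fun _ : Fin m × Fin 2 => X) K) where
  carrier := {φ | IsTate R χ m φ}
  zero_mem' := ⟨⊤, inferInstance, fun s _ v => by simp⟩
  add_mem' := fun {a b} ha hb => by
    obtain ⟨Δ, hΔ, ha⟩ := ha
    obtain ⟨Δ', hΔ', hb⟩ := hb
    refine ⟨Δ ⊓ Δ', inferInstance, fun s hs v => ?_⟩
    rw [add_apply, add_apply, ha s hs.1, hb s hs.2, mul_add]
  smul_mem' := fun c a ha => by
    obtain ⟨Δ, hΔ, ha⟩ := ha
    refine ⟨Δ, hΔ, fun s hs v => ?_⟩
    rw [smul_apply, smul_apply, ha s hs, smul_eq_mul, smul_eq_mul, mul_left_comm]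

theorem tate_kill {m : ℕ} {φ : MultilinearMap K (fun _ : Fin m × Fin 2 => X) K}
    (h : IsTate R χ m φ) : φ ∈ KillM R χ m := fun _ hY => hY m φ h

/-- Conjugation and killed forms. -/
theorem kills_conj {S : Type} [Fintype S] [DecidableEq S] {Y : End K X} {g : Γ} {c : K}
    {φ : MultilinearMap K (fun _ : S => X) K} (h : Kills (R g⁻¹ * Y * R g) φ) :
    Kills Y (c • φ.compLinearMap fun _ => R g⁻¹) := by
  intro v
  have h1 := h (fun l => R g⁻¹ (v l))
  have h2 : ∀ k, (c • φ.compLinearMap fun _ => R g⁻¹) (update v k (Y (v k))) =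
      c * φ (update (fun l => R g⁻¹ (v l)) k ((R g⁻¹ * Y * R g) (R g⁻¹ (v k)))) := by
    intro k
    rw [smul_apply, MultilinearMap.compLinearMap_apply, smul_eq_mul]
    congr 2
    funext l
    by_cases hl : l = k
    · subst hl
      rw [update_self, update_self, Module.End.mul_apply, Module.End.mul_apply, Rinv']
    · rw [update_of_ne hl, update_of_ne hl]
  rw [Finset.sum_congr rfl fun k _ => h2 k, ← Finset.mul_sum, h1, mul_zero]

theorem kill_stable {m : ℕ} (g : Γ) : ∀ φ ∈ KillM R χ m, TT R χ m g φ ∈ KillM R χ m := by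
  intro φ hφ Y hY
  refine kills_conj (hφ _ ?_)
  have h1 := lieT_conj R χ g⁻¹ hY
  rwa [inv_inv] at h1

theorem tate_stable {m : ℕ} (g : Γ) : ∀ φ ∈ TateM R χ m, TT R χ m g φ ∈ TateM R χ m := by
  rintro φ ⟨Δ, hΔ, h⟩
  refine ⟨Δ.comap (MulAut.conj g⁻¹).toMonoidHom, ⟨by
    rw [Subgroup.index_comap_of_surjective _ (MulAut.conj g⁻¹).surjective]
    exact hΔ.index_ne_zero⟩, fun t ht v => ?_⟩
  have h1 : g⁻¹ * t * g ∈ Δ := by
    have h1 : g⁻¹ * t * g⁻¹⁻¹ ∈ Δ := ht
    rwa [inv_inv] at h1
  have h2 := h _ h1 (fun l => R g⁻¹ (v l))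
  rw [TT_apply, TT_apply]
  have h3 : (fun l => R (g⁻¹ * t * g) (R g⁻¹ (v l))) = fun l => R g⁻¹ (R t (v l)) := by
    funext l
    rw [map_mul, map_mul, Module.End.mul_apply, Module.End.mul_apply, Rinv']
  have h4 : χ (g⁻¹ * t * g) = χ t := by
    rw [map_mul, map_mul, mul_right_comm, ← map_mul, inv_mul_cancel, map_one, one_mul]
  rw [h3, h4] at h2
  rw [h2]
  ring

/-- Products of eigenvalues which agree with a power of the multiplier up to a root of unity agree
up to a root of unity of bounded order. -/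
def BddProd (R : Representation K Γ X) (χ : Γ →* K) : Prop :=
  ∀ m : ℕ, ∃ M : ℕ, 0 < M ∧ ∀ g : Γ, ∀ β : Fin m × Fin 2 → K,
    (∀ j, ∃ x, x ≠ 0 ∧ R g x = β j • x) → (∃ k : ℕ, 0 < k ∧ (∏ j, β j) ^ k = (χ g ^ m) ^ k) →
      (∏ j, β j) ^ M = (χ g ^ m) ^ M

/-- A nonzero form does not vanish on some tuple of generalized eigenvectors. -/
theorem exists_tuple {S : Type} [Fintype S] [DecidableEq S] (f : End K X)
    {φ : MultilinearMap K (fun _ : S => X) K} (hφ : φ ≠ 0) :
    ∃ (β : S → K) (v : S → X), (∀ j, v j ∈ f.maxGenEigenspace (β j)) ∧ φ v ≠ 0 := by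
  classical
  by_contra hcon
  push Not at hcon
  apply hφ
  let b : ∀ β : K, Basis (Fin (finrank K (f.maxGenEigenspace β))) K (f.maxGenEigenspace β) :=
    fun β => Module.finBasis K _
  let B := (gen_internal f).collectedBasis b
  have hB : ∀ i, B i ∈ f.maxGenEigenspace i.1 := (gen_internal f).collectedBasis_mem b
  refine Module.Basis.ext_multilinear (fun _ => B) fun r => ?_
  rw [zero_apply]
  exact hcon _ _ fun j => hB (r j)

/-- The eigenvalues of the group on the forms killed by the Lie algebra are roots of unity of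
bounded order. -/
theorem eig_form {m M : ℕ} (hb : ∀ g : Γ, ∀ β : Fin m × Fin 2 → K,
    (∀ j, ∃ x, x ≠ 0 ∧ R g x = β j • x) → (∃ k : ℕ, 0 < k ∧ (∏ j, β j) ^ k = (χ g ^ m) ^ k) →
      (∏ j, β j) ^ M = (χ g ^ m) ^ M)
    {φ : MultilinearMap K (fun _ : Fin m × Fin 2 => X) K} (hφ : φ ∈ KillM R χ m) (hφ0 : φ ≠ 0)
    {g : Γ} {a : K} (ha : TT R χ m g φ = a • φ) : a ^ M = 1 := by
  have hχ := chi_ne χ g
  have h1 : ∀ v, χ g ^ m * φ v = a * φ (fun l => R g (v l)) := by
    intro v
    have h1 := congrArg (fun f : MultilinearMap K (fun _ : Fin m × Fin 2 => X) K =>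
      f (fun l => R g (v l))) ha
    simp only [TT_apply, smul_apply, smul_eq_mul, Rinv] at h1
    exact h1
  obtain ⟨β, v, hv, hφv⟩ := exists_tuple (R g) hφ0
  have ha0 : a ≠ 0 := by
    rintro rfl
    have h2 := h1 v
    rw [zero_mul] at h2
    exact hφv ((mul_eq_zero.1 h2).resolve_left (pow_ne_zero _ hχ))
  have hv0 : ∀ j, v j ≠ 0 := by
    intro j hj
    exact hφv (φ.map_coord_zero j hj)
  have heig : ∀ j, ∃ x, x ≠ 0 ∧ R g x = β j • x := fun j => exists_eig (hv j) (hv0 j)
  have hβ0 : ∀ j, β j ≠ 0 := by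
    intro j hj
    obtain ⟨x, hx0, hx⟩ := heig j
    rw [hj, zero_smul] at hx
    exact Rne (R := R) g hx0 hx
  have hprod : a⁻¹ * χ g ^ m = ∏ j, β j := by
    have h2 := multi_gen (g := R g) (g' := (a⁻¹ * χ g ^ m) • (1 : End K K)) (h := φ) (by
      intro w
      rw [LinearMap.smul_apply, Module.End.one_apply, smul_eq_mul, mul_assoc, h1 w, ← mul_assoc,
        inv_mul_cancel₀ ha0, one_mul]) β hv
    exact scalar_gen h2 hφv
  have haP : a * ∏ j, β j = χ g ^ m := by
    rw [← hprod, ← mul_assoc, mul_inv_cancel₀ ha0, one_mul]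
  have hP0 : (∏ j, β j) ≠ 0 := Finset.prod_ne_zero_iff.2 fun j _ => hβ0 j
  have hroot : ∃ k : ℕ, 0 < k ∧ a ^ k = 1 := by
    by_contra hno
    push Not at hno
    obtain ⟨θ, hθ⟩ := exists_add (Units.mk0 a ha0)
      (fun k hk h => hno k hk (congrArg Units.val h))
    obtain ⟨Y, hY, hYP⟩ := exists_slope (ρ := R) (χ := cu χ) g θ
    have h3 := hφ _ (slope_lie hYP) v
    have h4 : ∀ j, φ (update v j ((((Y, ext0 θ ((cu χ g : Kˣ) : K)) : End K X × K).1 -
        (((Y, ext0 θ ((cu χ g : Kˣ) : K)) : End K X × K).2 / 2) • (1 : End K X)) (v j))) =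
        (ext0 θ (β j) - ext0 θ (χ g) / 2) * φ v := by
      intro j
      have h5 : ((((Y, ext0 θ ((cu χ g : Kˣ) : K)) : End K X × K).1 -
        (((Y, ext0 θ ((cu χ g : Kˣ) : K)) : End K X × K).2 / 2) • (1 : End K X)) (v j)) =
          (ext0 θ (β j) - ext0 θ (χ g) / 2) • v j := by
        rw [LinearMap.sub_apply, hY _ _ (hv j), LinearMap.smul_apply, Module.End.one_apply,
          sub_smul]
        rfl
      rw [h5, MultilinearMap.map_update_smul, update_eq_self, smul_eq_mul]
    rw [Finset.sum_congr rfl fun j _ => h4 j, ← Finset.sum_mul] at h3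
    have h5 := (mul_eq_zero.1 h3).resolve_right hφv
    rw [Finset.sum_sub_distrib, Finset.sum_const, Finset.card_univ, Fintype.card_prod,
      Fintype.card_fin, Fintype.card_fin, nsmul_eq_mul,
      ← ext0_prod θ Finset.univ β fun j _ => hβ0 j] at h5
    have h6 : ext0 θ (a * ∏ j, β j) = ext0 θ (χ g ^ m) := by rw [haP]
    rw [ext0_mul θ ha0 hP0] at h6
    have h7 : ext0 θ (χ g ^ m) = m * ext0 θ (χ g) := by
      rcases Nat.eq_zero_or_pos m with rfl | hm
      · rw [pow_zero, ext0_one, Nat.cast_zero, zero_mul]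
      · exact ext0_pow θ _ hm
    apply hθ
    rw [← ext0_ne θ ha0]
    push_cast at h5
    linear_combination h6 + h7 - h5
  obtain ⟨k, hk, hak⟩ := hroot
  have h2 := hb g β heig ⟨k, hk, by rw [← haP, mul_pow, hak, one_mul]⟩
  rw [← haP, mul_pow] at h2
  exact mul_right_cancel₀ (pow_ne_zero M hP0) (by rw [one_mul]; exact h2.symm)

/-- One subgroup of finite index fixes all the Tate forms in a given number of variables. -/
theorem exists_common_form (R : Representation K Γ X) (χ : Γ →* K) (m : ℕ) :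
    ∃ Δ : Subgroup Γ, Δ.FiniteIndex ∧ ∀ φ ∈ TateM R χ m, ∀ s ∈ Δ, ∀ v,
      φ (fun l => R s (v l)) = χ s ^ m * φ v := by
  obtain ⟨S, hS⟩ := IsNoetherian.noetherian (TateM R χ m)
  have h1 : ∀ i : S, IsTate R χ m (i : MultilinearMap K (fun _ : Fin m × Fin 2 => X) K) := fun i => by
    have h2 : (i : MultilinearMap K (fun _ : Fin m × Fin 2 => X) K) ∈ TateM R χ m := by
      rw [← hS]
      exact Submodule.subset_span i.2
    exact h2
  choose Δ hΔ h2 using h1
  refine ⟨⨅ i, Δ i, Subgroup.finiteIndex_iInf hΔ, fun φ hφ s hs => ?_⟩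
  rw [← hS] at hφ
  induction hφ using Submodule.span_induction with
  | mem x hx => exact fun v => h2 ⟨x, hx⟩ s (Subgroup.mem_iInf.1 hs _) v
  | zero => intro v; rw [zero_apply, zero_apply, mul_zero]
  | add x y _ _ hx hy => intro v; rw [add_apply, add_apply, hx v, hy v, mul_add]
  | smul c x _ hx => intro v; rw [smul_apply, smul_apply, hx v, smul_eq_mul, smul_eq_mul, mul_left_comm]

/-- **The forms killed by the Lie algebra of the Tate forms are Tate forms.** -/
theorem tate_of_kill (hb : BddProd R χ) {m : ℕ}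
    {φ : MultilinearMap K (fun _ : Fin m × Fin 2 => X) K} (hφ : ∀ Y ∈ lieT R χ, Kills Y φ) :
    IsTate R χ m φ := by
  classical
  obtain ⟨M, hM, hb⟩ := hb m
  by_contra hcon
  obtain ⟨H, hH, ψ, hψC, hψN, hψ⟩ := exists_fixed_mod (TT R χ m) hM (N := TateM R χ m)
    (C := KillM R χ m) tate_stable kill_stable (fun h => hcon (h hφ))
    (fun g a ⟨x, hxC, hx0, hx⟩ => eig_form hb hxC hx0 hx)
  obtain ⟨Δ₀, hΔ₀, hcom⟩ := exists_common_form R χ m
  apply hψN
  refine ⟨Δ₀ ⊓ H, inferInstance, fun s hs v => ?_⟩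
  have hχ := chi_ne χ s
  -- the deviation
  set n := TT R χ m s ψ - ψ with hn
  have hnT : n ∈ TateM R χ m := hψ s hs.2
  have h1 : ∀ w, χ s ^ m * ψ w = ψ (fun l => R s (w l)) + χ s ^ m * n w := by
    intro w
    have h1 := hcom n hnT s hs.1 w
    rw [← h1, hn, MultilinearMap.sub_apply, TT_apply]
    simp only [Rinv]
    ring
  have h2 : ∀ (k : ℕ) (w : Fin m × Fin 2 → X), ψ (fun l => (R s ^ k) (w l)) =
      (χ s ^ m) ^ k * (ψ w - k * n w) := by
    intro k
    induction k with
    | zero => intro w; rw [pow_zero, pow_zero, Nat.cast_zero, zero_mul, sub_zero, one_mul]; rfl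
    | succ k ih =>
      intro w
      have h3 : (fun l => (R s ^ (k + 1)) (w l)) = fun l => (R s ^ k) (R s (w l)) := by
        funext l
        rw [pow_succ, Module.End.mul_apply]
      rw [h3, ih fun l => R s (w l), hcom n hnT s hs.1 w]
      have h4 := h1 w
      have h5 : ψ (fun l => R s (w l)) = χ s ^ m * ψ w - χ s ^ m * n w := by
        rw [h4]
        ring
      rw [h5]
      push_cast
      ring
  have hν0 : IsNilpotent (un (R s) - 1) := un_nil (R_inj s)
  obtain ⟨d, hd, hν⟩ : ∃ d, 2 ≤ d ∧ (un (R s) - 1) ^ d = 0 := by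
    obtain ⟨d, hd⟩ := hν0
    exact ⟨d + 2, by omega, by rw [pow_add, hd, zero_mul]⟩
  have hfix := fixed_of_kills ψ hd hν (hψC _ (log_mem s hd hν))
  rw [add_sub_cancel] at hfix
  have hn0 : n = 0 := by
    by_contra hne
    obtain ⟨β, w, hw, hnw⟩ := exists_tuple (R s) hne
    apply hnw
    have hw0 : ∀ j, w j ≠ 0 := by
      intro j hj
      exact hnw (n.map_coord_zero j hj)
    have hβ0 : ∀ j, β j ≠ 0 := by
      intro j hj
      obtain ⟨x, hx0, hx⟩ := exists_eig (hw j) (hw0 j)
      rw [hj, zero_smul] at hx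
      exact Rne (R := R) s hx0 hx
    have hP0 : (∏ j, β j) ≠ 0 := Finset.prod_ne_zero_iff.2 fun j _ => hβ0 j
    have h3 : ∀ k : ℕ, (∏ j, β j) ^ k * ψ w = (χ s ^ m) ^ k * (ψ w - k * n w) := by
      intro k
      rw [← h2 k w]
      have h4 : (fun l => (R s ^ k) (w l)) = fun l => β l ^ k • (un (R s) ^ k) (w l) := by
        funext l
        exact pow_eq_un (hβ0 l) k (hw l)
      rw [h4, MultilinearMap.map_smul_univ, hfix, smul_eq_mul, Finset.prod_pow]
    have e1 := h3 1
    have e2 := h3 2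
    rw [pow_one, pow_one, Nat.cast_one, one_mul] at e1
    rw [Nat.cast_ofNat] at e2
    set P := ∏ j, β j
    set c := χ s ^ m
    have hc0 : c ≠ 0 := pow_ne_zero _ hχ
    have e3 : c * (c - P) * n w = 0 := by
      linear_combination e2 - P * e1 - c * e1
    rcases mul_eq_zero.1 e3 with h | h
    · have h5 : c - P = 0 := (mul_eq_zero.1 h).resolve_left hc0
      have h6 : P = c := (sub_eq_zero.1 h5).symm
      rw [h6] at e1
      have h7 : c * n w = 0 := by linear_combination e1
      exact (mul_eq_zero.1 h7).resolve_left hc0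
    · exact h
  have h3 := h1 v
  rw [hn0, zero_apply, mul_zero, add_zero] at h3
  exact h3.symm

end Pool.Agent.K1H15.P1
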