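import Mathlib
import Pool.Agent.K1H15.MT.Desc
import Pool.Agent.K1H15.P1.Kill
import Pool.Agent.K1H13.N.Min

/-!
# The forms killed by the Lie algebra of the Tate forms: coefficients in the `ℓ`-adic numbers
-/

set_option linter.unusedSectionVars false

namespace Pool.Agent.K1H15.P1

open Module TensorProduct Finset Function Pool.Agent.H204R3.SP Pool.Agent.H204R3.GP
  Pool.Agent.W522.U Pool.Agent.K1H13.N Pool.Agent.W516.FT Pool.Agent.W516.DR Pool.Agent.K1H15.MT

/-- Finitely many elements of degree at most `n` lie in a field of bounded degree. -/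
theorem exists_field {F K : Type} [Field F] [Field K] [Algebra F K] {ι : Type} [DecidableEq ι]
    (n : ℕ) (hn : 1 ≤ n) (β : ι → K)
    (h : ∀ j, IsIntegral F (β j) ∧ (minpoly F (β j)).natDegree ≤ n) (S : Finset ι) :
    ∃ E : IntermediateField F K, FiniteDimensional F E ∧ finrank F E ≤ n ^ S.card ∧
      ∀ j ∈ S, β j ∈ E := by
  induction S using Finset.induction_on with
  | empty =>
    refine ⟨⊥, inferInstance, ?_, fun j hj => absurd hj (Finset.notMem_empty j)⟩
    rw [IntermediateField.finrank_bot, Finset.card_empty, pow_zero]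
  | insert i S hi ih =>
    obtain ⟨E, hE, h1, h2⟩ := ih
    have hfi : FiniteDimensional F (IntermediateField.adjoin F {β i}) :=
      IntermediateField.adjoin.finiteDimensional (h i).1
    refine ⟨IntermediateField.adjoin F {β i} ⊔ E, inferInstance, ?_, ?_⟩
    · refine (IntermediateField.finrank_sup_le _ _).trans ?_
      rw [IntermediateField.adjoin.finrank (h i).1, Finset.card_insert_of_notMem hi, pow_succ']
      exact Nat.mul_le_mul (h i).2 h1
    · intro j hj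
      rcases Finset.mem_insert.1 hj with rfl | hj
      · exact (le_sup_left : IntermediateField.adjoin F {β j} ≤ _)
          (IntermediateField.mem_adjoin_simple_self _ _)
      · exact (le_sup_right : E ≤ _) (h2 j hj)

section

variable {ℓ : ℕ} [hℓ : Fact ℓ.Prime] {V : Type} [AddCommGroup V] [Module ℚ_[ℓ] V]
  [FiniteDimensional ℚ_[ℓ] V] {Γ : Type} [Group Γ] (ρ : Representation ℚ_[ℓ] Γ V)
  (χ : Γ →* ℚ_[ℓ])

theorem bddProd_bcr : BddProd (bcr ρ (AlgebraicClosure ℚ_[ℓ])) (bcc χ (AlgebraicClosure ℚ_[ℓ])) := by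
  classical
  intro m
  set n := Module.finrank ℚ_[ℓ] V + 1 with hn
  refine ⟨Nat.factorial ((ℓ ^ 2) ^ (n ^ (Finset.univ : Finset (Fin m × Fin 2)).card)),
    Nat.factorial_pos _, ?_⟩
  rintro g β hβ ⟨k, hk, hk1⟩
  have hroot : ∀ j, IsIntegral ℚ_[ℓ] (β j) ∧ (minpoly ℚ_[ℓ] (β j)).natDegree ≤ n := by
    intro j
    obtain ⟨x, hx0, hx⟩ := hβ j
    have h1 : Module.End.HasEigenvalue (R := AlgebraicClosure ℚ_[ℓ])
        ((ρ g).baseChange (AlgebraicClosure ℚ_[ℓ])) (β j) :=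
      Module.End.hasEigenvalue_of_hasEigenvector ⟨Module.End.mem_eigenspace_iff.2 hx, hx0⟩
    have h2 := (Module.End.hasEigenvalue_iff_isRoot_charpoly _ (β j)).1 h1
    rw [LinearMap.charpoly_baseChange, Polynomial.IsRoot.def, Polynomial.eval_map_algebraMap] at h2
    refine ⟨⟨(ρ g).charpoly, (ρ g).charpoly_monic, h2⟩, ?_⟩
    have h3 := minpoly.min ℚ_[ℓ] (β j) (ρ g).charpoly_monic h2
    have h4 := Polynomial.natDegree_le_natDegree h3
    rw [LinearMap.charpoly_natDegree] at h4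
    omega
  obtain ⟨E, hE, h1, h2⟩ := exists_field n (by omega) β hroot Finset.univ
  set c := bcc χ (AlgebraicClosure ℚ_[ℓ]) g ^ m with hc
  have hc0 : c ≠ 0 := pow_ne_zero _ (chi_ne _ _)
  have hcE : c ∈ E := by
    rw [hc, bcc_apply, ← map_pow]
    exact E.algebraMap_mem _
  have hPE : ∏ j, β j ∈ E := prod_mem fun j hj => h2 j hj
  have h3 : ((∏ j, β j) / c) ^ k = 1 := by
    rw [div_pow, hk1, div_self (pow_ne_zero _ hc0)]
  have h4 : (minpoly ℚ_[ℓ] ((∏ j, β j) / c)).natDegree ≤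
      n ^ (Finset.univ : Finset (Fin m × Fin 2)).card := by
    have h5 : (minpoly ℚ_[ℓ] (⟨(∏ j, β j) / c, E.div_mem hPE hcE⟩ : E)).natDegree ≤
        Module.finrank ℚ_[ℓ] E := minpoly.natDegree_le _
    have h6 : minpoly ℚ_[ℓ] ((∏ j, β j) / c) =
        minpoly ℚ_[ℓ] (⟨(∏ j, β j) / c, E.div_mem hPE hcE⟩ : E) :=
      (IntermediateField.minpoly_eq (⟨(∏ j, β j) / c, E.div_mem hPE hcE⟩ : E)).symm
    rw [h6]
    exact h5.trans h1
  have h5 := ru_bound (ℓ := ℓ) _ hk h3 h4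
  rw [div_pow, div_eq_one_iff_eq (pow_ne_zero _ hc0)] at h5
  exact h5

variable {ρ χ}

/-- **The forms killed by the Lie algebra of the Tate forms are Tate forms.** -/
theorem tate_of_kills {m : ℕ} {φ : MultilinearMap ℚ_[ℓ] (fun _ : Fin m × Fin 2 => V) ℚ_[ℓ]}
    (hφ : ∀ Y ∈ lieT ρ χ, Kills Y φ) : IsTate ρ χ m φ := by
  classical
  set Ω := AlgebraicClosure ℚ_[ℓ]
  let b := Module.finBasis ℚ_[ℓ] V
  have _ : CharZero Ω := charZero_of_injective_algebraMap (algebraMap ℚ_[ℓ] Ω).injective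
  obtain ⟨Δ, hΔ, h⟩ := tate_of_kill (R := bcr ρ Ω) (χ := bcc χ Ω) (bddProd_bcr ρ χ)
    (φ := bcm (Ω := Ω) b φ) fun Z hZ => (kills_bcm_iff b φ Z).2 fun lam => hφ _ (lie_cmp ρ χ hZ lam)
  refine ⟨Δ, hΔ, fun s hs v => ?_⟩
  have h1 := h s hs fun l => (1 : Ω) ⊗ₜ[ℚ_[ℓ]] v l
  simp only [bcr_tmul] at h1
  rw [bcm_one, bcm_one, bcc_apply, ← map_pow, ← map_mul] at h1
  exact (algebraMap ℚ_[ℓ] Ω).injective h1

end

end Pool.Agent.K1H15.P1
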