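import Mathlib
import Pool.Agent.K1H15.MT.Desc
import Pool.Agent.K1H13.N.Desc

/-!
# The central elements of the Lie algebra of the Tate forms are semisimple
-/

set_option linter.unusedSectionVars false

namespace Pool.Agent.K1H15.P1

open Module TensorProduct Finset Function Pool.Agent.H204R3.SP Pool.Agent.H204R3.GP
  Pool.Agent.W522.U Pool.Agent.K1H13.N Pool.Agent.W516.FT Pool.Agent.W516.DR Pool.Agent.K1H15.MT

noncomputable section

variable {k : Type} [Field k] [CharZero k] {V : Type} [AddCommGroup V] [Module k V]
  [FiniteDimensional k V] {Γ : Type} [Group Γ] {ρ : Representation k Γ V} {χ : Γ →* k}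

/-- **The central elements of the Lie algebra are semisimple.** -/
theorem central_ss {ω : V →ₗ[k] V →ₗ[k] k} (hnd : ∀ x, (∀ y, ω x y = 0) → x = 0)
    (hω : ∀ g x y, ω (ρ g x) (ρ g y) = χ g * ω x y) (hss : FiniteIndexSemisimple ρ)
    (hb : BddRoots (bcr ρ (AlgebraicClosure k))) {z : Module.End k V} (hz : z ∈ lieT ρ χ)
    (hc : ∀ y ∈ lieT ρ χ, y * z = z * y) : z.IsSemisimple := by
  let Ω := AlgebraicClosure k
  have _ : CharZero Ω := charZero_of_injective_algebraMap (algebraMap k Ω).injective
  obtain ⟨n, hn, s, hs, hnil, hsim, hzs⟩ := Module.End.exists_isNilpotent_isSemisimple (f := z)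
  have hnc : ∀ y ∈ lieT ρ χ, y * n = n * y := by
    intro y hy
    have h1 : Commute y z := hc y hy
    exact (Algebra.commute_of_mem_adjoin_singleton_of_commute hn h1).eq
  have hnE : AlmostEquivariant ρ n := almost_of_commute hss hb hnc
  have hndΩ : ∀ x, (∀ y, bcb Ω ω x y = 0) → x = 0 :=
    nondeg_ext ω (bcb Ω ω) (fun u v => bcb_one ω u v) hnd
  -- the nilpotent part vanishes
  have hn0 : n = 0 := by
    by_contra hne
    have hne' : n.baseChange Ω ≠ 0 := fun h => hne (bc_inj h)
    obtain ⟨Δ₀, hΔ₀, hcom⟩ := exists_common_sub (bcr ρ Ω)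
    obtain ⟨Δ, hΔ, hnΔ⟩ := hnE
    have hnΩ : ∀ t ∈ Δ, ∀ v, (n.baseChange Ω) (bcr ρ Ω t v) = bcr ρ Ω t ((n.baseChange Ω) v) := by
      intro t ht v
      have h1 : n * ρ t = ρ t * n := LinearMap.ext fun v => hnΔ t ht v
      have h2 : (n.baseChange Ω) * ((ρ t).baseChange Ω) =
          ((ρ t).baseChange Ω) * (n.baseChange Ω) := by
        rw [← LinearMap.baseChange_mul, h1, LinearMap.baseChange_mul]
      exact congrArg (fun f : Module.End Ω (Ω ⊗[k] V) => f v) h2
    obtain ⟨b, hb1, hb2⟩ := exists_trace_ne (Δ := Δ) (hasProj_bcr ρ Ω hss _ hΔ) hnΩ hne'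
    apply hb2
    have hbz : Commute b (z.baseChange Ω) := by
      refine LinearMap.ext fun v => ?_
      exact (lie_comm hndΩ (bcb_inv ρ χ ω hω) ⟨Δ, hΔ, hb1⟩ (lie_ext ρ χ hz) v).symm
    have hbn : Commute b (n.baseChange Ω) := by
      have h1 : ∀ f ∈ Algebra.adjoin k {z}, Commute b (f.baseChange Ω) := by
        intro f hf
        induction hf using Algebra.adjoin_induction with
        | mem f hf =>
          rw [Set.mem_singleton_iff.1 hf]
          exact hbz
        | algebraMap c =>
          have h2 : ((algebraMap k (Module.End k V) c).baseChange Ω : Module.End Ω (Ω ⊗[k] V)) =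
              algebraMap Ω _ (algebraMap k Ω c) := by
            refine LinearMap.ext fun v => ?_
            induction v with
            | zero => rw [map_zero, map_zero]
            | add v w hv hw => rw [map_add, map_add, hv, hw]
            | tmul a v =>
              rw [LinearMap.baseChange_tmul, Module.algebraMap_end_apply,
                Module.algebraMap_end_apply, TensorProduct.smul_tmul', TensorProduct.tmul_smul,
                TensorProduct.smul_tmul', algebraMap_smul]
          rw [h2]
          exact (Algebra.commutes _ _).symm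
        | add f g _ _ hf hg =>
          rw [LinearMap.baseChange_add]
          exact hf.add_right hg
        | mul f g _ _ hf hg =>
          rw [LinearMap.baseChange_mul]
          exact hf.mul_right hg
      exact h1 n hn
    have hnilΩ : IsNilpotent (n.baseChange Ω) := by
      obtain ⟨m, hm⟩ := hnil
      refine ⟨m, ?_⟩
      have h1 : ∀ m : ℕ, (n.baseChange Ω) ^ m = (n ^ m).baseChange Ω := by
        intro m
        induction m with
        | zero =>
          rw [pow_zero, pow_zero]
          exact LinearMap.baseChange_id.symm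
        | succ m ih => rw [pow_succ, pow_succ, LinearMap.baseChange_mul, ih]
      rw [h1, hm, LinearMap.baseChange_zero]
    exact (LinearMap.isNilpotent_trace_of_isNilpotent
      (hbn.isNilpotent_mul_left hnilΩ)).eq_zero
  rw [hzs, hn0, zero_add]
  exact hsim

end

end Pool.Agent.K1H15.P1
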