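import Mathlib
import Pool.Agent.R918.Weyl

/-!
# The Casimir tensor of a module which is not trivial
-/

set_option autoImplicit false
set_option linter.unusedSectionVars false

open Module LieAlgebra LieModule TensorProduct

attribute [local instance 100] LieRing.ofAssociativeRing

noncomputable section

namespace Pool.Agent.K1H15.P1

section casimir

variable {K L : Type} [Field K] [CharZero K] [LieRing L] [LieAlgebra K L] [FiniteDimensional K L]
  [IsKilling K L] {M : Type} [AddCommGroup M] [Module K M] [LieRingModule L M] [LieModule K L M]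
  [FiniteDimensional K M]

/-- **The Casimir tensor.** -/
theorem exists_tensor (hM : ∃ (x : L) (m : M), ⁅x, m⁆ ≠ 0) : ∃ (n : ℕ) (x y : Fin n → L),
    (∀ z : L, ∑ i, (⁅z, x i⁆ ⊗ₜ[K] y i + x i ⊗ₜ[K] ⁅z, y i⁆) = 0) ∧
      ∑ i, LinearMap.trace K M (toEnd K L M (x i) * toEnd K L M (y i)) ≠ 0 := by
  classical
  obtain ⟨J, hJ⟩ := exists_isCompl (LieModule.ker K L M)
  have hne : J ≠ ⊥ := by
    rintro rfl
    obtain ⟨x, m, h⟩ := hM
    have h1 : LieModule.ker K L M = ⊤ := by
      rw [← hJ.sup_eq_top, sup_bot_eq]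
    have h2 : x ∈ LieModule.ker K L M := by
      rw [h1]
      exact LieSubmodule.mem_top _
    exact h ((LieModule.mem_ker K L M x).1 h2 m)
  let B : LinearMap.BilinForm K J := (traceForm K L M).restrict (J : Submodule K L)
  have hB : ∀ x y : J, B x y = traceForm K L M x y := fun x y => rfl
  have hsymm : B.IsSymm := ⟨fun x y => by rw [hB, hB, traceForm_comm]⟩
  have hnd : B.Nondegenerate := by
    refine hsymm.isRefl.nondegenerate_iff_separatingLeft.2 fun x hx => ?_
    exact Subtype.ext (Pool.Agent.R918.Weyl.trace_nondeg J hJ x.2 fun y hy => hx ⟨y, hy⟩)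
  let b := Module.finBasis K J
  let b' := B.dualBasis hnd b
  have e1 : ∀ v : J, v = ∑ j, B v (b' j) • b j := by
    intro v
    have h1 := b.sum_repr v
    conv_lhs => rw [← h1]
    refine Finset.sum_congr rfl fun j _ => ?_
    congr 1
    have h2 : B v (b' j) = ∑ i, b.repr v i * B (b i) (b' j) := by
      conv_lhs => rw [← h1]
      rw [map_sum, LinearMap.sum_apply]
      exact Finset.sum_congr rfl fun i _ => by rw [map_smul, LinearMap.smul_apply, smul_eq_mul]
    rw [h2, Finset.sum_eq_single j]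
    · rw [LinearMap.BilinForm.apply_dualBasis_right hnd hsymm, if_pos rfl, mul_one]
    · intro i _ hi
      rw [LinearMap.BilinForm.apply_dualBasis_right hnd hsymm, if_neg hi, mul_zero]
    · intro h
      exact absurd (Finset.mem_univ _) h
  have e2 : ∀ v : J, v = ∑ j, B v (b j) • b' j := by
    intro v
    have h1 := b'.sum_repr v
    conv_lhs => rw [← h1]
    refine Finset.sum_congr rfl fun j _ => ?_
    congr 1
    exact LinearMap.BilinForm.dualBasis_repr_apply hnd b v j
  refine ⟨finrank K J, fun i => b i, fun i => b' i, fun x => ?_, ?_⟩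
  · -- the brackets of the bases
    let u : Fin (finrank K J) → J := fun i => ⟨⁅x, (b i : L)⁆, J.lie_mem (b i).2⟩
    let u' : Fin (finrank K J) → J := fun i => ⟨⁅x, (b' i : L)⁆, J.lie_mem (b' i).2⟩
    rw [Finset.sum_add_distrib]
    have h2 : ∑ i, ⁅x, (b i : L)⁆ ⊗ₜ[K] (b' i : L) =
        ∑ i, ∑ j, B (u i) (b' j) • ((b j : L) ⊗ₜ[K] (b' i : L)) := by
      refine Finset.sum_congr rfl fun i _ => ?_
      have h3 : ⁅x, (b i : L)⁆ = ∑ j, B (u i) (b' j) • (b j : L) := by
        have h4 := congrArg (Subtype.val) (e1 (u i))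
        rw [AddSubmonoidClass.coe_finsetSum] at h4
        exact h4
      rw [h3, TensorProduct.sum_tmul]
      exact Finset.sum_congr rfl fun j _ => by rw [TensorProduct.smul_tmul']
    have h3 : ∑ i, (b i : L) ⊗ₜ[K] ⁅x, (b' i : L)⁆ =
        ∑ i, ∑ j, B (u' i) (b j) • ((b i : L) ⊗ₜ[K] (b' j : L)) := by
      refine Finset.sum_congr rfl fun i _ => ?_
      have h3 : ⁅x, (b' i : L)⁆ = ∑ j, B (u' i) (b j) • (b' j : L) := by
        have h4 := congrArg (Subtype.val) (e2 (u' i))
        rw [AddSubmonoidClass.coe_finsetSum] at h4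
        exact h4
      rw [h3, TensorProduct.tmul_sum]
      exact Finset.sum_congr rfl fun j _ => by rw [TensorProduct.tmul_smul]
    have h4 : ∀ i j, B (u i) (b' j) + B (u' j) (b i) = 0 := by
      intro i j
      have h5 := traceForm_apply_lie_apply K L M (b i : L) x (b' j : L)
      rw [hB, hB]
      change traceForm K L M ⁅x, (b i : L)⁆ (b' j : L) + traceForm K L M ⁅x, (b' j : L)⁆ (b i : L) = 0
      rw [← lie_skew, map_neg, LinearMap.neg_apply, h5, traceForm_comm K L M ⁅x, (b' j : L)⁆,
        neg_add_cancel]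
    rw [h2, h3, Finset.sum_comm, ← Finset.sum_add_distrib]
    refine Finset.sum_eq_zero fun i _ => ?_
    rw [← Finset.sum_add_distrib]
    refine Finset.sum_eq_zero fun j _ => ?_
    rw [← add_smul, h4 j i, zero_smul]
  · have h1 : ∑ i, LinearMap.trace K M (toEnd K L M (b i) * toEnd K L M (b' i)) =
        ∑ i, B (b i) (b' i) := rfl
    have h2 : ∀ i, B (b i) (b' i) = 1 := fun i => by
      rw [LinearMap.BilinForm.apply_dualBasis_right hnd hsymm, if_pos rfl]
    rw [h1, Finset.sum_congr rfl fun i _ => h2 i, Finset.sum_const, Finset.card_univ,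
      Fintype.card_fin, nsmul_eq_mul, mul_one]
    intro h3
    have h4 : finrank K J = 0 := by exact_mod_cast h3
    have h5 : Subsingleton J := Module.finrank_zero_iff.1 h4
    refine hne ((LieSubmodule.eq_bot_iff _).2 fun x hx => ?_)
    exact congrArg Subtype.val (Subsingleton.elim (⟨x, hx⟩ : J) 0)

end casimir

section hom

variable {K L : Type} [Field K] [CharZero K] [LieRing L] [LieAlgebra K L] [FiniteDimensional K L]
  [IsKilling K L] {M : Type} [AddCommGroup M] [Module K M] [FiniteDimensional K M]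

/-- The Casimir tensor of a representation which is not trivial. -/
theorem exists_tensor_hom (f : L →ₗ⁅K⁆ Module.End K M) (hf : ∃ x, f x ≠ 0) :
    ∃ (n : ℕ) (x y : Fin n → L),
      (∀ z : L, ∑ i, (⁅z, x i⁆ ⊗ₜ[K] y i + x i ⊗ₜ[K] ⁅z, y i⁆) = 0) ∧
        ∑ i, LinearMap.trace K M (f (x i) * f (y i)) ≠ 0 := by
  letI : LieRingModule L M := LieRingModule.compLieHom M f
  haveI : LieModule K L M := LieModule.compLieHom M f
  obtain ⟨x, hx⟩ := hf
  obtain ⟨m, hm⟩ : ∃ m, f x m ≠ 0 := by
    by_contra hcon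
    push Not at hcon
    exact hx (LinearMap.ext hcon)
  obtain ⟨n, x, y, h1, h2⟩ := exists_tensor (K := K) (L := L) (M := M) ⟨x, m, hm⟩
  exact ⟨n, x, y, h1, h2⟩

end hom

end Pool.Agent.K1H15.P1
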