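import Mathlib
import Pool.Agent.H204R3.SP.Lie

/-!
# Endomorphisms and pairs of endomorphisms acting on the variables of a multilinear form
-/

set_option linter.unusedSectionVars false

namespace Pool.Agent.K1H15.P1

open Module Finset Function TensorProduct Pool.Agent.H204R3.SP

noncomputable section

variable {k V κ : Type} [Field k] [AddCommGroup V] [Module k V] [Fintype κ] [DecidableEq κ]

variable (k V κ) in
/-- The space of the multilinear forms on `V` with variables indexed by `κ`. -/
def Fm : Type := MultilinearMap k (fun _ : κ => V) k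

instance : AddCommGroup (Fm k V κ) :=
  inferInstanceAs (AddCommGroup (MultilinearMap k (fun _ : κ => V) k))

instance : Module k (Fm k V κ) :=
  inferInstanceAs (Module k (MultilinearMap k (fun _ : κ => V) k))

instance [FiniteDimensional k V] : FiniteDimensional k (Fm k V κ) :=
  inferInstanceAs (Module.Finite k (MultilinearMap k (fun _ : κ => V) k))

/-- The value of a form. -/
def ev (φ : Fm k V κ) (v : κ → V) : k := (show MultilinearMap k (fun _ : κ => V) k from φ) v

theorem Fm.ext {φ ψ : Fm k V κ} (h : ∀ v, ev φ v = ev ψ v) : φ = ψ := MultilinearMap.ext h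

theorem ev_add (φ ψ : Fm k V κ) (v : κ → V) : ev (φ + ψ) v = ev φ v + ev ψ v := rfl

theorem ev_smul (c : k) (φ : Fm k V κ) (v : κ → V) : ev (c • φ) v = c * ev φ v := rfl

theorem ev_zero (v : κ → V) : ev (0 : Fm k V κ) v = 0 := rfl

theorem ev_upd_add (φ : Fm k V κ) (v : κ → V) (a : κ) (x y : V) :
    ev φ (update v a (x + y)) = ev φ (update v a x) + ev φ (update v a y) :=
  MultilinearMap.map_update_add _ _ _ _ _

theorem ev_upd_smul (φ : Fm k V κ) (v : κ → V) (a : κ) (c : k) (x : V) :
    ev φ (update v a (c • x)) = c * ev φ (update v a x) :=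
  MultilinearMap.map_update_smul _ _ _ _ _

theorem ev_sum {ι : Type} (s : Finset ι) (φ : ι → Fm k V κ) (v : κ → V) :
    ev (∑ i ∈ s, φ i) v = ∑ i ∈ s, ev (φ i) v := by
  classical
  induction s using Finset.induction_on with
  | empty => rfl
  | insert i s hi ih => rw [Finset.sum_insert hi, Finset.sum_insert hi, ev_add, ih]

theorem upd_fun (a : κ) (x : End k V) (v : κ → V) :
    (fun i => (update (fun _ : κ => (LinearMap.id : V →ₗ[k] V)) a x) i (v i)) =
      update v a (x (v a)) := by
  funext i
  by_cases h : i = a
  · subst h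
    rw [update_self, update_self]
  · rw [update_of_ne h, update_of_ne h]
    rfl

/-- The endomorphism `x` acting on the variable `a` of a form. -/
def pos (a : κ) : End k V →ₗ[k] End k (Fm k V κ) where
  toFun x :=
    { toFun := fun φ => MultilinearMap.compLinearMap
        (show MultilinearMap k (fun _ : κ => V) k from φ)
        (update (fun _ : κ => (LinearMap.id : V →ₗ[k] V)) a x)
      map_add' := fun φ ψ => rfl
      map_smul' := fun c φ => rfl }
  map_add' x y := by
    refine LinearMap.ext fun φ => Fm.ext fun v => ?_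
    change ev φ (fun i => _) = ev φ (fun i => _) + ev φ (fun i => _)
    rw [upd_fun, upd_fun, upd_fun, LinearMap.add_apply, ev_upd_add]
  map_smul' c x := by
    refine LinearMap.ext fun φ => Fm.ext fun v => ?_
    change ev φ (fun i => _) = c * ev φ (fun i => _)
    rw [upd_fun, upd_fun, LinearMap.smul_apply, ev_upd_smul]

theorem pos_apply (a : κ) (x : End k V) (φ : Fm k V κ) (v : κ → V) :
    ev (pos a x φ) v = ev φ (update v a (x (v a))) := by
  change ev φ (fun i => _) = _
  rw [upd_fun]

theorem pos_mul (a : κ) (x y : End k V) : pos (κ := κ) a x * pos a y = pos a (y * x) := by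
  refine LinearMap.ext fun φ => Fm.ext fun v => ?_
  rw [Module.End.mul_apply, pos_apply, pos_apply, pos_apply, update_self, update_idem]
  rfl

theorem pos_one (a : κ) : pos (κ := κ) a (1 : End k V) = 1 := by
  refine LinearMap.ext fun φ => Fm.ext fun v => ?_
  rw [pos_apply, Module.End.one_apply, update_eq_self]
  rfl

theorem pos_comm {a b : κ} (h : a ≠ b) (x y : End k V) :
    pos (κ := κ) a x * pos b y = pos b y * pos a x := by
  refine LinearMap.ext fun φ => Fm.ext fun v => ?_
  rw [Module.End.mul_apply, Module.End.mul_apply, pos_apply, pos_apply, pos_apply, pos_apply,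
    update_of_ne h.symm, update_of_ne h, update_comm h]

/-- The endomorphism `x` acting on a form as a derivation. -/
def dd : End k V →ₗ[k] End k (Fm k V κ) := ∑ a : κ, pos a

theorem dd_eq (x : End k V) : dd (κ := κ) x = ∑ a : κ, pos a x := by
  unfold dd
  rw [LinearMap.sum_apply]

theorem dd_apply (x : End k V) (φ : Fm k V κ) (v : κ → V) :
    ev (dd x φ) v = ∑ a, ev φ (update v a (x (v a))) := by
  rw [dd_eq, LinearMap.sum_apply, ev_sum]
  exact Finset.sum_congr rfl fun a _ => pos_apply a x φ v

theorem kills_iff (x : End k V) (φ : MultilinearMap k (fun _ : κ => V) k) :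
    Kills x φ ↔ dd (κ := κ) x φ = 0 := by
  constructor
  · intro h
    refine Fm.ext fun v => ?_
    rw [dd_apply]
    exact h v
  · intro h v
    have h1 := dd_apply (κ := κ) x φ v
    rw [h] at h1
    exact h1.symm

theorem dd_pos (x y : End k V) (a : κ) :
    dd x * pos a y - pos a y * dd (κ := κ) x = pos a (y * x - x * y) := by
  rw [dd_eq, Finset.sum_mul, Finset.mul_sum, ← Finset.sum_sub_distrib, Finset.sum_eq_single a]
  · rw [pos_mul, pos_mul, ← map_sub]
  · intro b _ hb
    rw [pos_comm hb, sub_self]
  · intro h
    exact absurd (Finset.mem_univ _) h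

theorem dd_bracket (x y : End k V) :
    dd x * dd y - dd y * dd (κ := κ) x = dd (y * x - x * y) := by
  rw [dd_eq y, dd_eq (y * x - x * y), Finset.mul_sum, Finset.sum_mul, ← Finset.sum_sub_distrib]
  exact Finset.sum_congr rfl fun a _ => dd_pos x y a

/-- The tensor `∑ x ⊗ y` acting on the variables `a` and `b` of a form. -/
def act (a b : κ) : End k V ⊗[k] End k V →ₗ[k] End k (Fm k V κ) :=
  LinearMap.mul' k (End k (Fm k V κ)) ∘ₗ TensorProduct.map (pos a) (pos b)

theorem act_tmul (a b : κ) (x y : End k V) : act (κ := κ) a b (x ⊗ₜ[k] y) = pos a x * pos b y := rfl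

/-- The bracket with `x`. -/
def adE (x : End k V) : End k V →ₗ[k] End k V := LinearMap.mulLeft k x - LinearMap.mulRight k x

theorem adE_apply (x y : End k V) : adE x y = x * y - y * x := rfl

/-- The action of `x` on the tensors. -/
def adT (x : End k V) : End k V ⊗[k] End k V →ₗ[k] End k V ⊗[k] End k V :=
  TensorProduct.map (adE x) LinearMap.id + TensorProduct.map LinearMap.id (adE x)

theorem adT_tmul (x y z : End k V) :
    adT x (y ⊗ₜ[k] z) = (x * y - y * x) ⊗ₜ[k] z + y ⊗ₜ[k] (x * z - z * x) := rfl

theorem dd_act {a b : κ} (x : End k V) (t : End k V ⊗[k] End k V) :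
    dd x * act a b t - act a b t * dd (κ := κ) x = -act a b (adT x t) := by
  induction t with
  | zero => simp only [map_zero, mul_zero, zero_mul, sub_self, neg_zero]
  | add t t' h h' =>
    rw [map_add, mul_add, add_mul, add_sub_add_comm, h, h', map_add, map_add, neg_add]
  | tmul y z =>
    rw [act_tmul, adT_tmul, map_add, act_tmul, act_tmul]
    have h1 := dd_pos (κ := κ) x y a
    have h2 := dd_pos (κ := κ) x z b
    have h3 : dd x * (pos a y * pos b z) - pos a y * pos b z * dd (κ := κ) x =
        (dd x * pos a y - pos a y * dd x) * pos b z +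
          pos a y * (dd x * pos b z - pos b z * dd x) := by
      noncomm_ring
    rw [h3, h1, h2]
    have h4 : pos (κ := κ) a (y * x - x * y) = -pos a (x * y - y * x) := by
      rw [← map_neg, neg_sub]
    have h5 : pos (κ := κ) b (z * x - x * z) = -pos b (x * z - z * x) := by
      rw [← map_neg, neg_sub]
    rw [h4, h5]
    noncomm_ring

end

end Pool.Agent.K1H15.P1
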