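import Mathlib
import Pool.Agent.W516.Cartan

/-!
# A Lie algebra with nondegenerate trace form and trivial centre has trivial radical
-/

set_option autoImplicit false
set_option linter.unusedSectionVars false

open Module LieAlgebra LieModule

attribute [local instance 100] LieRing.ofAssociativeRing

noncomputable section

namespace Pool.Agent.K1H15.P1

variable {k V : Type} [Field k] [CharZero k] [AddCommGroup V] [Module k V] [FiniteDimensional k V]
  (D : LieSubalgebra k (End k V))

theorem coe_lie (x y : D) : ((⁅x, y⁆ : D) : End k V) = (x : End k V) * y - y * x := rfl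

/-- Jacobson: a commutator which commutes with one of its factors is nilpotent. -/
theorem nil_of_comm {x y : End k V} (h : (y * x - x * y) * x = x * (y * x - x * y)) :
    IsNilpotent (y * x - x * y) := by
  apply Pool.Agent.W516.KC.isNilpotent_of_trace
  intro p
  set n := y * x - x * y with hn
  have h1 : Commute (Polynomial.aeval n p) x := by
    have h2 : Commute n x := h
    induction p using Polynomial.induction_on' with
    | add p q hp hq => rw [map_add]; exact hp.add_left hq
    | monomial m a =>
      rw [Polynomial.aeval_monomial]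
      exact Commute.mul_left (Algebra.commutes a x) (h2.pow_left m)
  conv_lhs => rw [hn, mul_sub, map_sub]
  rw [sub_eq_zero, ← mul_assoc, LinearMap.trace_mul_comm, ← mul_assoc, ← mul_assoc, h1.eq]

variable {D}

/-- The ideal `[D, I]`, for an abelian ideal `I`, consists of nilpotent endomorphisms. -/
theorem nil_ideal {I : LieIdeal k D} (hI : IsLieAbelian I) {n : D}
    (hn : n ∈ (⁅(⊤ : LieIdeal k D), I⁆ : LieIdeal k D)) : IsNilpotent (n : End k V) := by
  have hcomm : ∀ a ∈ I, ∀ b ∈ I, Commute (a : End k V) (b : End k V) := by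
    intro a ha b hb
    have h1 : ⁅(⟨a, ha⟩ : I), (⟨b, hb⟩ : I)⁆ = 0 := trivial_lie_zero _ _ _ _
    have h2 : ((⁅a, b⁆ : D) : End k V) = 0 := by
      have h3 := congrArg (fun z : I => ((z : D) : End k V)) h1
      exact h3
    rw [coe_lie, sub_eq_zero] at h2
    exact h2
  have h1 : n ∈ I ∧ IsNilpotent (n : End k V) := by
    have h2 : n ∈ (⁅(⊤ : LieIdeal k D), I⁆ : LieIdeal k D).toSubmodule := hn
    rw [LieSubmodule.lieIdeal_oper_eq_linear_span'] at h2
    clear hn
    induction h2 using Submodule.span_induction with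
    | mem z hz =>
      obtain ⟨y, -, x, hx, rfl⟩ := hz
      have h3 : ⁅y, x⁆ ∈ I := I.lie_mem hx
      refine ⟨h3, ?_⟩
      rw [coe_lie]
      refine nil_of_comm ?_
      have h4 := hcomm _ h3 x hx
      rw [coe_lie] at h4
      exact h4.eq
    | zero => exact ⟨I.zero_mem, ⟨1, by rw [pow_one]; rfl⟩⟩
    | add a b _ _ ha hb =>
      exact ⟨I.add_mem ha.1 hb.1, (hcomm a ha.1 b hb.1).isNilpotent_add ha.2 hb.2⟩
    | smul c a _ ha =>
      refine ⟨I.smul_mem c ha.1, ?_⟩
      exact (show IsNilpotent (c • (a : End k V)) from ha.2.smul c)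
  exact h1.2

/-- The elements of an ideal consisting of nilpotent endomorphisms are orthogonal to everything. -/
theorem trace_zero {N : LieIdeal k D} (hN : ∀ n ∈ N, IsNilpotent (n : End k V)) {n w : D}
    (hn : n ∈ N) : LinearMap.trace k V ((n : End k V) * w) = 0 := by
  have h1 : LieModule.IsNilpotent N V := by
    rw [LieModule.isNilpotent_iff_forall' (R := k)]
    intro x
    exact hN x x.2
  obtain ⟨r, hr⟩ := h1.nilpotent k
  have h2 : N.lcs V r = ⊥ := by
    rw [← LieSubmodule.toSubmodule_inj, LieIdeal.coe_lcs_eq, hr]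
    rfl
  have h3 : ∀ (j : ℕ) (v : V), (((n : End k V) * (w : End k V)) ^ j) v ∈ N.lcs V j := by
    intro j
    induction j with
    | zero => intro v; exact LieSubmodule.mem_top _
    | succ j ih =>
      intro v
      rw [pow_succ', Module.End.mul_apply, Module.End.mul_apply, LieIdeal.lcs_succ]
      have h4 : (w : End k V) ((((n : End k V) * (w : End k V)) ^ j) v) ∈ N.lcs V j :=
        (N.lcs V j).lie_mem (x := w) (ih v)
      exact LieSubmodule.lie_mem_lie hn h4
  refine (LinearMap.isNilpotent_trace_of_isNilpotent (f := (n : End k V) * (w : End k V))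
    ⟨r, LinearMap.ext fun v => ?_⟩).eq_zero
  have h4 := h3 r v
  rw [h2] at h4
  exact (LieSubmodule.mem_bot _).1 h4

/-- **A Lie algebra with nondegenerate trace form and trivial centre has trivial radical.** -/
theorem trivial_radical (hT : ∀ x : D, (∀ y : D, LinearMap.trace k V ((x : End k V) * y) = 0) → x = 0)
    (hz : ∀ x : D, (∀ y : D, ⁅y, x⁆ = 0) → x = 0) : HasTrivialRadical k D := by
  rw [hasTrivialRadical_iff_no_abelian_ideals]
  intro I hI
  rw [LieSubmodule.eq_bot_iff]
  intro x hx
  refine hz x fun y => ?_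
  have h1 : ⁅y, x⁆ ∈ (⁅(⊤ : LieIdeal k D), I⁆ : LieIdeal k D) :=
    LieSubmodule.lie_mem_lie (LieSubmodule.mem_top y) hx
  exact hT _ fun w => trace_zero (N := ⁅(⊤ : LieIdeal k D), I⁆) (fun n hn => nil_ideal hI hn) h1

end Pool.Agent.K1H15.P1
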