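import Mathlib
import Pool.Agent.K1H15.P1.Pos
import Pool.Agent.K1H15.P1.Cas
import Pool.Agent.K1H15.P1.Rad
import Pool.Agent.W516.MT.Casimir2

/-!
# The projector onto the invariants of a reductive Lie algebra
-/

set_option autoImplicit false
set_option linter.unusedSectionVars false

open Module TensorProduct LieAlgebra

attribute [local instance 100] LieRing.ofAssociativeRing

noncomputable section

namespace Pool.Agent.K1H15.P1

section fitting

variable {k E : Type} [Field k] [AddCommGroup E] [Module k E] [FiniteDimensional k E]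

/-- The Fitting projector is a polynomial in the operator. -/
theorem exists_fitting (g : End k E) : ∃ q ∈ Algebra.adjoin k {g}, q * q = q ∧
    (∀ x, g x = 0 → q x = x) ∧ ∃ n : ℕ, g ^ n * q = 0 := by
  have hμ : minpoly k g ≠ 0 := minpoly.ne_zero (Algebra.IsIntegral.isIntegral g)
  obtain ⟨r, hr, hr0⟩ := Polynomial.exists_eq_pow_rootMultiplicity_mul_and_not_dvd _ hμ 0
  rw [map_zero, sub_zero] at hr hr0
  set m := Polynomial.rootMultiplicity 0 (minpoly k g) with hm
  have hcop : IsCoprime ((Polynomial.X : Polynomial k) ^ (m + 1)) r :=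
    (Polynomial.irreducible_X.coprime_iff_not_dvd.2 hr0).pow_left
  obtain ⟨a, b, hab⟩ := hcop
  have hkill : Polynomial.aeval g ((Polynomial.X : Polynomial k) ^ (m + 1) * r) = 0 := by
    have h1 : (Polynomial.X : Polynomial k) ^ (m + 1) * r = Polynomial.X * minpoly k g := by
      rw [hr]
      ring
    rw [h1, map_mul, minpoly.aeval, mul_zero]
  refine ⟨Polynomial.aeval g (b * r), Polynomial.aeval_mem_adjoin_singleton k g, ?_, ?_, m + 1, ?_⟩
  · have h1 : b * r * (b * r) = b * r - a * b * (Polynomial.X ^ (m + 1) * r) := by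
      linear_combination (b * r) * hab
    rw [← map_mul, h1, map_sub, map_mul _ (a * b), hkill, mul_zero, sub_zero]
  · intro x hx
    have h1 : b * r = 1 - a * Polynomial.X ^ m * Polynomial.X := by
      linear_combination hab
    rw [h1, map_sub, map_mul, map_one, Polynomial.aeval_X, LinearMap.sub_apply,
      Module.End.mul_apply, hx, map_zero, sub_zero, Module.End.one_apply]
  · have h1 : g ^ (m + 1) = Polynomial.aeval g ((Polynomial.X : Polynomial k) ^ (m + 1)) := by
      rw [map_pow, Polynomial.aeval_X]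
    have h2 : (Polynomial.X : Polynomial k) ^ (m + 1) * (b * r) =
        b * (Polynomial.X ^ (m + 1) * r) := by ring
    rw [h1, ← map_mul, h2, map_mul, hkill, mul_zero]

/-- A semisimple operator. -/
theorem ker_pow_of_semisimple {f : End k E} (hf : f.IsSemisimple) (n : ℕ) {x : E}
    (hx : (f ^ n) x = 0) : f x = 0 := by
  have key : ∀ y, f (f y) = 0 → f y = 0 := by
    intro y hy
    obtain ⟨C, hC, hcompl⟩ := Module.End.isSemisimple_iff.1 hf (LinearMap.ker f) (by
      intro z hz
      rw [Submodule.mem_comap, LinearMap.mem_ker, LinearMap.mem_ker.1 hz, map_zero])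
    have h1 : y ∈ LinearMap.ker f ⊔ C := by
      rw [hcompl.sup_eq_top]
      exact Submodule.mem_top
    obtain ⟨a, ha, c, hc, rfl⟩ := Submodule.mem_sup.1 h1
    rw [map_add, LinearMap.mem_ker.1 ha, zero_add] at hy ⊢
    have h2 : f c ∈ LinearMap.ker f ⊓ C := ⟨hy, hC hc⟩
    rw [hcompl.inf_eq_bot] at h2
    exact (Submodule.mem_bot k).1 h2
  induction n with
  | zero =>
    rw [pow_zero, Module.End.one_apply] at hx
    rw [hx, map_zero]
  | succ n ih =>
    rcases n with _ | n
    · rw [zero_add, pow_one] at hx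
      exact hx
    · apply ih
      rw [pow_succ', Module.End.mul_apply]
      refine key _ ?_
      have h3 : f (f ((f ^ n) x)) = (f ^ (n + 1 + 1)) x := by
        rw [pow_succ', pow_succ']
        rfl
      rw [h3]
      exact hx

/-- **Minimal projectors.** In an algebra of operators there is an idempotent `p`, fixing the given
vectors, such that the product of `p` with an operator of the algebra which commutes with `p` and
kills the given vectors is nilpotent. -/
theorem exists_minimal (A : Subalgebra k (End k E)) (I : Set E) :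
    ∃ p ∈ A, p * p = p ∧ (∀ x ∈ I, p x = x) ∧
      ∀ T ∈ A, T * p = p * T → (∀ x ∈ I, T x = 0) → IsNilpotent (T * p) := by
  classical
  have hex : ∃ n : ℕ, ∃ p ∈ A, p * p = p ∧ (∀ x ∈ I, p x = x) ∧
      finrank k (LinearMap.range p) = n :=
    ⟨_, 1, A.one_mem, one_mul 1, fun _ _ => rfl, rfl⟩
  obtain ⟨p, hpA, hpp, hpI, hpn⟩ := Nat.find_spec hex
  refine ⟨p, hpA, hpp, hpI, fun T hT hTp hTI => ?_⟩
  set g := T * p with hg
  have hgA : g ∈ A := A.mul_mem hT hpA
  have hgp : g * p = g := by rw [hg, mul_assoc, hpp]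
  have hpg : p * g = g := by rw [hg, ← mul_assoc, ← hTp, mul_assoc, hpp]
  obtain ⟨q, hq, hqq, hqI, n, hn⟩ := exists_fitting g
  have hqA : q ∈ A := Algebra.adjoin_le (Set.singleton_subset_iff.2 hgA) hq
  have hcomm : Commute p q := by
    have h1 : Commute p g := by rw [Commute, SemiconjBy, hpg, hgp]
    exact (Algebra.commute_of_mem_adjoin_singleton_of_commute hq h1)
  have hgx : ∀ x ∈ I, g x = 0 := fun x hx => by
    rw [hg, Module.End.mul_apply, hpI x hx, hTI x hx]
  have h1 : Nat.find hex ≤ finrank k (LinearMap.range (p * q)) := by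
    refine Nat.find_min' hex ⟨p * q, A.mul_mem hpA hqA, ?_, fun x hx => ?_, rfl⟩
    · rw [mul_assoc, ← mul_assoc q, ← hcomm.eq, mul_assoc p q q, hqq, ← mul_assoc, hpp]
    · rw [Module.End.mul_apply, hqI x (hgx x hx), hpI x hx]
  have h2 : LinearMap.range (p * q) = LinearMap.range p := by
    apply Submodule.eq_of_le_of_finrank_le
    · rintro _ ⟨x, rfl⟩
      exact ⟨q x, rfl⟩
    · rw [hpn]
      exact h1
  have h3 : g ^ n * p = 0 := by
    refine LinearMap.ext fun x => ?_
    have h4 : p x ∈ LinearMap.range (p * q) := by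
      rw [h2]
      exact ⟨x, rfl⟩
    obtain ⟨y, hy⟩ := h4
    rw [Module.End.mul_apply, ← hy, hcomm.eq, ← Module.End.mul_apply, ← mul_assoc, hn, zero_mul,
      LinearMap.zero_apply, LinearMap.zero_apply]
  refine ⟨n + 1, ?_⟩
  have h5 : g ^ (n + 1) = g ^ n * p * g := by
    rw [mul_assoc, hpg, pow_succ]
  rw [h5, h3, zero_mul]

end fitting

section core

variable {k V : Type} [Field k] [CharZero k] [AddCommGroup V] [Module k V] [FiniteDimensional k V]
  {L : Submodule k (End k V)}

/-- The span of the brackets. -/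
def br (L : Submodule k (End k V)) : Submodule k (End k V) :=
  Submodule.span k {z | ∃ x ∈ L, ∃ y ∈ L, z = x * y - y * x}

theorem br_mem {x y : End k V} (hx : x ∈ L) (hy : y ∈ L) : x * y - y * x ∈ br L :=
  Submodule.subset_span ⟨x, hx, y, hy, rfl⟩

theorem br_le (hbr : ∀ x ∈ L, ∀ y ∈ L, x * y - y * x ∈ L) : br L ≤ L := by
  rw [br, Submodule.span_le]
  rintro _ ⟨x, hx, y, hy, rfl⟩
  exact hbr x hx y hy

/-- An element orthogonal to the brackets is central. -/
theorem central_of_orth (hbr : ∀ x ∈ L, ∀ y ∈ L, x * y - y * x ∈ L)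
    (hT : Pool.Agent.W516.KC2.TraceNondeg L) {x : End k V} (hx : x ∈ L)
    (h : ∀ w ∈ br L, LinearMap.trace k V (x * w) = 0) : ∀ y ∈ L, y * x = x * y := by
  intro a ha
  rw [← sub_eq_zero]
  refine hT _ (hbr a ha x hx) fun b hb => ?_
  have h1 := h _ (br_mem ha hb)
  rw [mul_sub, map_sub, sub_eq_zero] at h1
  rw [sub_mul, map_sub, sub_eq_zero, mul_assoc, LinearMap.trace_mul_comm, mul_assoc x a b, h1,
    mul_assoc]

/-- Central elements which are sums of brackets vanish. -/
theorem br_central (hT : Pool.Agent.W516.KC2.TraceNondeg L)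
    (hbr : ∀ x ∈ L, ∀ y ∈ L, x * y - y * x ∈ L) {z : End k V} (hz : z ∈ br L)
    (hc : ∀ y ∈ L, y * z = z * y) : z = 0 := by
  have hzL := br_le hbr hz
  -- operators commuting with `L` are orthogonal to the brackets
  have h1 : ∀ w : End k V, (∀ y ∈ L, y * w = w * y) → ∀ u ∈ br L,
      LinearMap.trace k V (w * u) = 0 := by
    intro w hw u hu
    rw [br] at hu
    induction hu using Submodule.span_induction with
    | mem u hu =>
      obtain ⟨x, hx, y, hy, rfl⟩ := hu
      rw [mul_sub, map_sub, sub_eq_zero, ← mul_assoc, ← hw x hx, mul_assoc,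
        LinearMap.trace_mul_comm, mul_assoc]
    | zero => rw [mul_zero, map_zero]
    | add a b _ _ ha hb => rw [mul_add, map_add, ha, hb, add_zero]
    | smul c a _ ha => rw [mul_smul_comm, map_smul, ha, smul_zero]
  have hnil : IsNilpotent z := by
    apply Pool.Agent.W516.KC.isNilpotent_of_trace
    intro p
    refine h1 _ (fun y hy => ?_) z hz
    have h2 : Commute y z := hc y hy
    have h3 : Commute y (Polynomial.aeval z p) := by
      induction p using Polynomial.induction_on' with
      | add p q hp hq => rw [map_add]; exact hp.add_right hq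
      | monomial m a =>
        rw [Polynomial.aeval_monomial]
        exact Commute.mul_right (Algebra.commutes a y).symm (h2.pow_right m)
    exact h3.eq
  refine hT z hzL fun y hy => ?_
  have h2 : Commute z y := (hc y hy).symm
  exact (LinearMap.isNilpotent_trace_of_isNilpotent (h2.isNilpotent_mul_right hnil)).eq_zero

/-- The trace form is nondegenerate on the brackets. -/
theorem br_nondeg (hT : Pool.Agent.W516.KC2.TraceNondeg L)
    (hbr : ∀ x ∈ L, ∀ y ∈ L, x * y - y * x ∈ L) : Pool.Agent.W516.KC2.TraceNondeg (br L) :=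
  fun x hx h => br_central hT hbr hx (central_of_orth hbr hT (br_le hbr hx) h)

/-- The decomposition of the Lie algebra. -/
theorem exists_dec (hT : Pool.Agent.W516.KC2.TraceNondeg L)
    (hbr : ∀ x ∈ L, ∀ y ∈ L, x * y - y * x ∈ L) {x : End k V} (hx : x ∈ L) :
    ∃ d ∈ br L, (x - d) ∈ L ∧ ∀ y ∈ L, y * (x - d) = (x - d) * y := by
  let f : Module.Dual k (br L) :=
    (LinearMap.trace k V ∘ₗ LinearMap.mulLeft k x) ∘ₗ (br L).subtype
  set d := (Pool.Agent.W516.KC2.trE (br L) (br_nondeg hT hbr)).symm f with hd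
  have h1 : ∀ w : br L, LinearMap.trace k V (d.1 * w.1) = LinearMap.trace k V (x * w.1) := by
    intro w
    have h2 : Pool.Agent.W516.KC2.trE (br L) (br_nondeg hT hbr) d = f := by
      rw [hd, LinearEquiv.apply_symm_apply]
    exact congrArg (fun g : Module.Dual k (br L) => g w) h2
  have h3 : x - d.1 ∈ L := L.sub_mem hx (br_le hbr d.2)
  refine ⟨d.1, d.2, h3, central_of_orth hbr hT h3 fun w hw => ?_⟩
  rw [sub_mul, map_sub, sub_eq_zero]
  exact (h1 ⟨w, hw⟩).symm

variable {E : Type} [AddCommGroup E] [Module k E] [FiniteDimensional k E]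

/-- **The projector onto the invariants.** -/
theorem exists_projector (hbr : ∀ x ∈ L, ∀ y ∈ L, x * y - y * x ∈ L)
    (hT : Pool.Agent.W516.KC2.TraceNondeg L) (δ : End k V →ₗ[k] End k E)
    (hδ : ∀ x y, δ x * δ y - δ y * δ x = δ (y * x - x * y)) (A : Subalgebra k (End k E))
    (h1 : ∀ F ∈ A, ∀ x ∈ L, δ x * F = F * δ x)
    (h2 : ∀ t : End k V ⊗[k] End k V, (∀ x ∈ L, adT x t = 0) →
      LinearMap.mul' k (End k E) (TensorProduct.map δ δ t) ∈ A)
    (h3 : ∀ z ∈ L, (∀ y ∈ L, y * z = z * y) → δ z ∈ A ∧ (δ z).IsSemisimple) :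
    ∃ P ∈ A, P * P = P ∧ ∀ φ, P φ = φ ↔ ∀ x ∈ L, δ x φ = 0 := by
  classical
  obtain ⟨p, hpA, hpp, hpI, hmin⟩ := exists_minimal A {φ | ∀ x ∈ L, δ x φ = 0}
  -- the centre
  have hZ : ∀ z ∈ L, (∀ y ∈ L, y * z = z * y) → δ z * p = 0 := by
    intro z hz hc
    obtain ⟨h4, h5⟩ := h3 z hz hc
    obtain ⟨n, hn⟩ := hmin (δ z) h4 (h1 p hpA z hz) fun φ hφ => hφ z hz
    have hcomm : Commute (δ z) p := h1 p hpA z hz
    refine LinearMap.ext fun φ => ?_
    have h6 : (δ z ^ (n + 1)) (p φ) = 0 := by
      have h7 : (δ z * p) ^ (n + 1) = δ z ^ (n + 1) * p := by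
        rw [hcomm.mul_pow]
        congr 1
        have : ∀ m : ℕ, p ^ (m + 1) = p := by
          intro m
          induction m with
          | zero => rw [zero_add, pow_one]
          | succ m ih => rw [pow_succ, ih, hpp]
        exact this n
      rw [← Module.End.mul_apply, ← h7, pow_succ, hn, zero_mul]
      rfl
    exact ker_pow_of_semisimple h5 (n + 1) h6
  -- the Lie algebra of the brackets
  have hDbr : ∀ x ∈ br L, ∀ y ∈ br L, x * y - y * x ∈ br L := fun x hx y hy =>
    br_mem (br_le hbr hx) (br_le hbr hy)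
  let D : LieSubalgebra k (End k V) := Pool.Agent.W516.KC.toLie (br L) hDbr
  have hDmem : ∀ x, x ∈ D ↔ x ∈ br L := fun _ => Iff.rfl
  have hrad : HasTrivialRadical k D := by
    refine trivial_radical (fun x h => ?_) fun x h => ?_
    · apply Subtype.ext
      exact br_nondeg hT hbr x.1 x.2 fun y hy => h ⟨y, hy⟩
    · apply Subtype.ext
      refine br_central hT hbr x.2 fun y hy => ?_
      obtain ⟨d, hd, -, hdc⟩ := exists_dec hT hbr hy
      have h4 : ((⁅(⟨d, hd⟩ : D), x⁆ : D) : End k V) = 0 := by
        rw [h]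
        rfl
      rw [coe_lie] at h4
      have h5 := hdc x.1 (br_le hbr x.2)
      have h6 : y = d + (y - d) := by abel
      rw [h6, add_mul, mul_add, sub_eq_zero.1 h4, ← h5]
  have hkil : IsKilling k D := inferInstance
  have hD : ∀ x ∈ br L, δ x * p = 0 := by
    by_contra hcon
    push Not at hcon
    obtain ⟨x₀, hx₀, hne⟩ := hcon
    have hcom : ∀ x ∈ br L, δ x * p = p * δ x := fun x hx => h1 p hpA x (br_le hbr hx)
    let f : D →ₗ⁅k⁆ End k E :=
      { toFun := fun x => -(δ x.1 * p)
        map_add' := fun x y => by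
          change -(δ (x.1 + y.1) * p) = _
          rw [map_add, add_mul, neg_add]
        map_smul' := fun c x => by
          change -(δ (c • x.1) * p) = c • _
          rw [map_smul, smul_mul_assoc, smul_neg]
        map_lie' := by
          intro x y
          change -(δ (x.1 * y.1 - y.1 * x.1) * p) =
            -(δ x.1 * p) * -(δ y.1 * p) - -(δ y.1 * p) * -(δ x.1 * p)
          rw [← hδ, neg_mul_neg, neg_mul_neg]
          have e1 : δ x.1 * p * (δ y.1 * p) = δ x.1 * δ y.1 * p := by
            rw [mul_assoc, ← mul_assoc p, ← hcom y.1 y.2, mul_assoc (δ y.1), hpp, mul_assoc]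
          have e2 : δ y.1 * p * (δ x.1 * p) = δ y.1 * δ x.1 * p := by
            rw [mul_assoc, ← mul_assoc p, ← hcom x.1 x.2, mul_assoc (δ x.1), hpp, mul_assoc]
          rw [e1, e2, ← sub_mul, ← neg_mul, neg_sub] }
    have hf : ∀ x : D, f x = -(δ x.1 * p) := fun _ => rfl
    obtain ⟨n, x, y, hxy, htr⟩ := exists_tensor_hom f ⟨⟨x₀, hx₀⟩, fun h => hne (by
      rw [hf, neg_eq_zero] at h
      exact h)⟩
    -- the tensor
    let t : End k V ⊗[k] End k V := ∑ i, (x i : End k V) ⊗ₜ[k] (y i : End k V)
    have ht : ∀ z ∈ L, adT z t = 0 := by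
      intro z hz
      obtain ⟨d, hd, -, hdc⟩ := exists_dec hT hbr hz
      have e1 : ∀ w : D, z * (w : End k V) - w * z = ((⁅(⟨d, hd⟩ : D), w⁆ : D) : End k V) := by
        intro w
        rw [coe_lie]
        have h5 := hdc w.1 (br_le hbr w.2)
        have h6 : z * (w : End k V) - w * z = d * w - w * d + -((w : End k V) * (z - d) -
            (z - d) * w) := by noncomm_ring
        rw [h6, h5, sub_self, neg_zero, add_zero]
      let ι : D →ₗ[k] End k V := (br L).subtype
      have e2 := congrArg (TensorProduct.map ι ι) (hxy ⟨d, hd⟩)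
      rw [map_zero, map_sum] at e2
      rw [← e2]
      change adT z (∑ i, (x i : End k V) ⊗ₜ[k] (y i : End k V)) = _
      rw [map_sum]
      refine Finset.sum_congr rfl fun i _ => ?_
      rw [adT_tmul, e1, e1, map_add, TensorProduct.map_tmul, TensorProduct.map_tmul]
      rfl
    set T := LinearMap.mul' k (End k E) (TensorProduct.map δ δ t) with hTdef
    have hTs : T = ∑ i, δ (x i) * δ (y i) := by
      rw [hTdef]
      change LinearMap.mul' k (End k E) (TensorProduct.map δ δ (∑ i, _)) = _
      rw [map_sum, map_sum]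
      rfl
    have hTp : T * p = p * T := by
      rw [hTs, Finset.sum_mul, Finset.mul_sum]
      refine Finset.sum_congr rfl fun i _ => ?_
      rw [mul_assoc, hcom _ (y i).2, ← mul_assoc, hcom _ (x i).2, mul_assoc]
    have hnil := hmin T (h2 t ht) hTp fun φ hφ => by
      rw [hTs, LinearMap.sum_apply]
      refine Finset.sum_eq_zero fun i _ => ?_
      rw [Module.End.mul_apply, hφ _ (br_le hbr (y i).2), map_zero]
    apply htr
    have h4 : ∑ i, LinearMap.trace k E (f (x i) * f (y i)) = LinearMap.trace k E (T * p) := by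
      rw [hTs, Finset.sum_mul, map_sum]
      refine Finset.sum_congr rfl fun i _ => ?_
      rw [hf, hf, neg_mul_neg]
      congr 1
      rw [mul_assoc, ← mul_assoc p, ← hcom _ (y i).2, mul_assoc (δ _), hpp, mul_assoc]
    rw [h4]
    exact (LinearMap.isNilpotent_trace_of_isNilpotent hnil).eq_zero
  refine ⟨p, hpA, hpp, fun φ => ⟨fun hφ x hx => ?_, fun h => hpI φ h⟩⟩
  obtain ⟨d, hd, hdL, hdc⟩ := exists_dec hT hbr hx
  have e1 : δ x * p = 0 := by
    have h6 : x = d + (x - d) := by abel
    rw [h6, map_add, add_mul, hD d hd, hZ _ hdL hdc, add_zero]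
  rw [← hφ, ← Module.End.mul_apply, e1]
  rfl

end core

end Pool.Agent.K1H15.P1
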