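import Mathlib
import Pool.Agent.K1H15.P1.Core

/-!
# The projector onto the forms killed by a reductive Lie algebra
-/

set_option autoImplicit false
set_option linter.unusedSectionVars false

open Module TensorProduct Finset Function

noncomputable section

namespace Pool.Agent.K1H15.P1

section

variable {k V κ : Type} [Field k] [CharZero k] [AddCommGroup V] [Module k V]
  [FiniteDimensional k V] [Fintype κ] [DecidableEq κ] {L : Submodule k (End k V)}

variable (κ L) in
/-- The algebra of operators generated by the tensors killed by the Lie algebra. -/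
def alg : Subalgebra k (End k (Fm k V κ)) :=
  Algebra.adjoin k {F | ∃ a b : κ, ∃ t : End k V ⊗[k] End k V, a ≠ b ∧
    (∀ x ∈ L, adT x t = 0) ∧ F = act a b t}

theorem act_mem {a b : κ} (hab : a ≠ b) {t : End k V ⊗[k] End k V}
    (ht : ∀ x ∈ L, adT x t = 0) : act a b t ∈ alg κ L :=
  Algebra.subset_adjoin ⟨a, b, t, hab, ht, rfl⟩

theorem alg_comm {F : End k (Fm k V κ)} (hF : F ∈ alg κ L) {x : End k V} (hx : x ∈ L) :
    dd x * F = F * dd x := by
  induction hF using Algebra.adjoin_induction with
  | mem F hF =>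
    obtain ⟨a, b, t, -, ht, rfl⟩ := hF
    have h1 := dd_act (κ := κ) (a := a) (b := b) x t
    rw [ht x hx, map_zero, neg_zero, sub_eq_zero] at h1
    exact h1
  | algebraMap c => exact (Algebra.commutes c _).symm
  | add F G _ _ hF hG => rw [mul_add, add_mul, hF, hG]
  | mul F G _ _ hF hG => rw [← mul_assoc, hF, mul_assoc, hG, mul_assoc]

/-- The contraction of a tensor. -/
def ctr : End k V ⊗[k] End k V →ₗ[k] End k V :=
  LinearMap.mul' k (End k V) ∘ₗ (TensorProduct.comm k (End k V) (End k V)).toLinearMap

theorem ctr_tmul (x y : End k V) : ctr (x ⊗ₜ[k] y) = y * x := rfl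

theorem ctr_adT (x : End k V) (t : End k V ⊗[k] End k V) :
    ctr (adT x t) = x * ctr t - ctr t * x := by
  induction t with
  | zero => simp only [map_zero, mul_zero, zero_mul, sub_self]
  | add t t' h h' => rw [map_add, map_add, map_add, h, h', mul_add, add_mul]; abel
  | tmul y z =>
    rw [adT_tmul, map_add, ctr_tmul, ctr_tmul, ctr_tmul]
    noncomm_ring

theorem act_self (a : κ) (t : End k V ⊗[k] End k V) : act a a t = pos a (ctr t) := by
  induction t with
  | zero => simp only [map_zero]
  | add t t' h h' => rw [map_add, map_add, map_add, h, h']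
  | tmul y z => rw [act_tmul, ctr_tmul, pos_mul]

theorem act_one (a b : κ) (x : End k V) : act a b (x ⊗ₜ[k] (1 : End k V)) = pos a x := by
  rw [act_tmul, pos_one, mul_one]

theorem adT_one (x y : End k V) :
    adT x (y ⊗ₜ[k] (1 : End k V)) = (x * y - y * x) ⊗ₜ[k] (1 : End k V) := by
  rw [adT_tmul, mul_one, one_mul, sub_self, TensorProduct.tmul_zero, add_zero]

theorem pos_mem (hκ : ∀ a : κ, ∃ b, a ≠ b) (a : κ) {y : End k V}
    (hy : ∀ x ∈ L, x * y = y * x) : pos a y ∈ alg κ L := by
  obtain ⟨b, hb⟩ := hκ a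
  rw [← act_one a b]
  refine act_mem hb fun x hx => ?_
  rw [adT_one, hy x hx, sub_self, TensorProduct.zero_tmul]

theorem act_mem' (hκ : ∀ a : κ, ∃ b, a ≠ b) (a b : κ) {t : End k V ⊗[k] End k V}
    (ht : ∀ x ∈ L, adT x t = 0) : act a b t ∈ alg κ L := by
  by_cases hab : a = b
  · subst hab
    rw [act_self]
    refine pos_mem hκ a fun x hx => ?_
    rw [← sub_eq_zero, ← ctr_adT, ht x hx, map_zero]
  · exact act_mem hab ht

theorem mul_dd (t : End k V ⊗[k] End k V) :
    LinearMap.mul' k (End k (Fm k V κ)) (TensorProduct.map dd dd t) =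
      ∑ a : κ, ∑ b : κ, act a b t := by
  induction t with
  | zero => simp only [map_zero, Finset.sum_const_zero]
  | add t t' h h' =>
    rw [map_add, map_add, h, h', ← Finset.sum_add_distrib]
    refine Finset.sum_congr rfl fun a _ => ?_
    rw [← Finset.sum_add_distrib]
    exact Finset.sum_congr rfl fun b _ => (map_add _ _ _).symm
  | tmul y z =>
    rw [TensorProduct.map_tmul, LinearMap.mul'_apply, dd_eq, dd_eq, Finset.sum_mul_sum]
    rfl

theorem mul_mem (hκ : ∀ a : κ, ∃ b, a ≠ b) {t : End k V ⊗[k] End k V}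
    (ht : ∀ x ∈ L, adT x t = 0) :
    LinearMap.mul' k (End k (Fm k V κ)) (TensorProduct.map dd dd t) ∈ alg κ L := by
  rw [mul_dd]
  exact Subalgebra.sum_mem _ fun a _ => Subalgebra.sum_mem _ fun b _ => act_mem' hκ a b ht

theorem pos_ss (a : κ) {z : End k V} (hz : z.IsSemisimple) :
    (pos (κ := κ) a z).IsSemisimple := by
  have h1 : ∀ p : Polynomial k, Polynomial.aeval (pos (κ := κ) a z) p =
      pos a (Polynomial.aeval z p) := by
    intro p
    induction p using Polynomial.induction_on' with
    | add p q hp hq => rw [map_add, map_add, map_add, hp, hq]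
    | monomial n c =>
      rw [Polynomial.aeval_monomial, Polynomial.aeval_monomial]
      have h2 : ∀ n : ℕ, pos (κ := κ) a z ^ n = pos a (z ^ n) := by
        intro n
        induction n with
        | zero => rw [pow_zero, pow_zero, pos_one]
        | succ n ih => rw [pow_succ, ih, pos_mul, ← pow_succ']
      rw [h2, ← Algebra.smul_def, ← Algebra.smul_def, map_smul]
  refine Module.End.isSemisimple_of_squarefree_aeval_eq_zero
    (p := minpoly k z) hz.minpoly_squarefree ?_
  rw [h1, minpoly.aeval, map_zero]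

theorem dd_ss {z : End k V} (hz : z.IsSemisimple) : (dd (κ := κ) z).IsSemisimple := by
  rw [dd_eq]
  have hc : ∀ (s : Finset κ) (a : κ), Commute (pos (κ := κ) a z) (∑ b ∈ s, pos (κ := κ) b z) := by
    intro s a
    refine Commute.sum_right _ _ _ fun b _ => ?_
    by_cases hab : a = b
    · subst hab
      exact Commute.refl _
    · exact pos_comm hab z z
  have h : ∀ s : Finset κ, (∑ b ∈ s, pos (κ := κ) b z).IsSemisimple := by
    intro s
    induction s using Finset.induction_on with
    | empty =>
      rw [Finset.sum_empty]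
      exact Module.End.isSemisimple_zero
    | insert a s ha ih =>
      rw [Finset.sum_insert ha]
      exact Module.End.IsSemisimple.add_of_commute (hc s a) (pos_ss a hz) ih
  exact h _

/-- **The projector onto the forms killed by the Lie algebra.** -/
theorem exists_projector_form (hκ : ∀ a : κ, ∃ b, a ≠ b)
    (hbr : ∀ x ∈ L, ∀ y ∈ L, x * y - y * x ∈ L)
    (hT : Pool.Agent.W516.KC2.TraceNondeg L)
    (hss : ∀ z ∈ L, (∀ y ∈ L, y * z = z * y) → z.IsSemisimple) :
    ∃ P ∈ alg κ L, P * P = P ∧
      ∀ φ : Fm k V κ, P φ = φ ↔ ∀ x ∈ L, dd x φ = 0 := by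
  refine exists_projector hbr hT dd (dd_bracket (κ := κ)) (alg κ L)
    (fun F hF x hx => alg_comm hF hx) (fun t ht => mul_mem hκ ht) fun z hz hc => ⟨?_, ?_⟩
  · rw [dd_eq]
    exact Subalgebra.sum_mem _ fun a _ => pos_mem hκ a hc
  · exact dd_ss (hss z hz hc)

end

end Pool.Agent.K1H15.P1
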