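import Mathlib
import Pool.Agent.K1H15.P1.FmProj
import Pool.Agent.K1H15.P1.Desc
import Pool.Agent.K1H15.P1.CSS

/-!
# Tensors on the algebra of endomorphisms and forms in four variables
-/

set_option linter.unusedSectionVars false

namespace Pool.Agent.K1H15.P1

open Module TensorProduct Finset Function Pool.Agent.H204R3.SP Pool.Agent.H204R3.GP
  Pool.Agent.W522.U Pool.Agent.K1H13.N Pool.Agent.W516.FT Pool.Agent.W516.DR Pool.Agent.K1H15.MT

noncomputable section

section four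

variable {k V : Type} [Field k] [CharZero k] [AddCommGroup V] [Module k V]
  (ω : V →ₗ[k] V →ₗ[k] k)

/-- The form `ω ⊗ ω`. -/
def oo : Fm k V (Fin 2 × Fin 2) := mmG (Equiv.refl _) fun _ => ω

theorem oo_apply (v : Fin 2 × Fin 2 → V) :
    ev (oo ω) v = ω (v (0, 0)) (v (0, 1)) * ω (v (1, 0)) (v (1, 1)) := by
  change mmG (Equiv.refl _) (fun _ => ω) v = _
  rw [mmG_apply, Fin.prod_univ_two]
  rfl

/-- The form in four variables of a tensor. -/
def F4 : End k V ⊗[k] End k V →ₗ[k] Fm k V (Fin 2 × Fin 2) where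
  toFun t := act (0, 0) (1, 0) t (oo ω)
  map_add' t t' := by rw [map_add, LinearMap.add_apply]
  map_smul' c t := by rw [map_smul, LinearMap.smul_apply, RingHom.id_apply]

theorem F4_def (t : End k V ⊗[k] End k V) : F4 ω t = act (0, 0) (1, 0) t (oo ω) := rfl

theorem F4_tmul (x y : End k V) (v : Fin 2 × Fin 2 → V) :
    ev (F4 ω (x ⊗ₜ[k] y)) v = ω (x (v (0, 0))) (v (0, 1)) * ω (y (v (1, 0))) (v (1, 1)) := by
  rw [F4_def, act_tmul, Module.End.mul_apply, pos_apply, pos_apply, oo_apply]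
  simp [Function.update]

/-- A tensor is determined by its form. -/
theorem F4_inj [FiniteDimensional k V] (hnd : ∀ x, (∀ y, ω x y = 0) → x = 0)
    {t : End k V ⊗[k] End k V} (ht : F4 ω t = 0) : t = 0 := by
  classical
  let b := Module.finBasis k V
  let n := Fin (Module.finrank k V)
  let Φ : End k V →ₗ[k] (n × n → k) :=
    { toFun := fun x p => ω (x (b p.1)) (b p.2)
      map_add' := fun x y => by
        funext p
        simp
      map_smul' := fun c x => by
        funext p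
        simp }
  have hΦ : ∀ x p, Φ x p = ω (x (b p.1)) (b p.2) := fun _ _ => rfl
  have hinj : Function.Injective Φ := by
    rw [injective_iff_map_eq_zero]
    intro x hx
    refine b.ext fun i => ?_
    rw [LinearMap.zero_apply]
    refine hnd _ fun y => ?_
    have h1 : ω (x (b i)) = 0 := by
      refine b.ext fun j => ?_
      rw [← hΦ x (i, j), hx]
      rfl
    rw [h1, LinearMap.zero_apply]
  have hdim : Module.finrank k (End k V) = Module.finrank k (n × n → k) := by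
    rw [Module.finrank_linearMap, Module.finrank_fintype_fun_eq_card, Fintype.card_prod,
      Fintype.card_fin]
  let e := Φ.linearEquivOfInjective hinj hdim
  let B : Basis (n × n) k (End k V) := Basis.ofEquivFun e
  have hB : ∀ x p, B.repr x p = ω (x (b p.1)) (b p.2) := fun x p => by
    rw [← hΦ]
    rfl
  apply (B.tensorProduct B).repr.injective
  rw [map_zero]
  ext ⟨p, q⟩
  have key : ∀ t : End k V ⊗[k] End k V, (B.tensorProduct B).repr t (p, q) =
      ev (F4 ω t) (fun l => if l = (0, 0) then b p.1 else if l = (0, 1) then b p.2 else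
        if l = (1, 0) then b q.1 else b q.2) := by
    intro t
    induction t with
    | zero => rw [map_zero, map_zero, ev_zero]; rfl
    | add t t' h h' => rw [map_add, map_add, ev_add, Finsupp.add_apply, h, h']
    | tmul x y =>
      rw [Basis.tensorProduct_repr_tmul_apply, F4_tmul, hB, hB]
      simp [mul_comm]
  rw [key, ht, ev_zero]
  rfl

/-- The derivation of the form of a tensor. -/
theorem dd_F4 {X : End k V} (hX : ∀ u w, ω (X u) w + ω u (X w) = 0)
    (t : End k V ⊗[k] End k V) : dd X (F4 ω t) = -F4 ω (adT X t) := by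
  have h0 : dd X (oo ω) = 0 := by
    refine Fm.ext fun v => ?_
    rw [dd_apply, ev_zero, Fintype.sum_prod_type, Fin.sum_univ_two, Fin.sum_univ_two,
      Fin.sum_univ_two]
    simp only [oo_apply, Function.update]
    simp
    linear_combination (ω (v (1, 0)) (v (1, 1))) * hX (v (0, 0)) (v (0, 1)) +
      (ω (v (0, 0)) (v (0, 1))) * hX (v (1, 0)) (v (1, 1))
  have h1 := dd_act (κ := Fin 2 × Fin 2) (a := (0, 0)) (b := (1, 0)) X t
  have h2 := congrArg (fun F : End k (Fm k V (Fin 2 × Fin 2)) => F (oo ω)) h1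
  simp only [LinearMap.sub_apply, Module.End.mul_apply, h0, map_zero, sub_zero,
    LinearMap.neg_apply] at h2
  exact h2

end four

section tate

variable {k V Γ : Type} [Field k] [CharZero k] [AddCommGroup V] [Module k V]
  [FiniteDimensional k V] [Group Γ] (ρ : Representation k Γ V) (χ : Γ →* k)

/-- Conjugation by an element of the group. -/
def cj (g : Γ) : End k V →ₗ[k] End k V := LinearMap.mulRight k (ρ g⁻¹) ∘ₗ LinearMap.mulLeft k (ρ g)

theorem cj_apply (g : Γ) (x : End k V) : cj ρ g x = ρ g * x * ρ g⁻¹ := rfl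

/-- **Tate tensors.** A tensor fixed by a subgroup of finite index. -/
def IsTateTensor (t : End k V ⊗[k] End k V) : Prop :=
  ∃ Δ : Subgroup Γ, Δ.FiniteIndex ∧ ∀ g ∈ Δ, TensorProduct.map (cj ρ g) (cj ρ g) t = t

variable {ρ χ} {ω : V →ₗ[k] V →ₗ[k] k}

theorem F4_cj (hω : ∀ g x y, ω (ρ g x) (ρ g y) = χ g * ω x y) (g : Γ)
    (t : End k V ⊗[k] End k V) (v : Fin 2 × Fin 2 → V) :
    ev (F4 ω (TensorProduct.map (cj ρ g) (cj ρ g) t)) (fun l => ρ g (v l)) =
      χ g ^ 2 * ev (F4 ω t) v := by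
  induction t with
  | zero => simp only [map_zero, ev_zero, mul_zero]
  | add t t' h h' => rw [map_add, map_add, map_add, ev_add, ev_add, h, h', mul_add]
  | tmul x y =>
    rw [TensorProduct.map_tmul, F4_tmul, F4_tmul, cj_apply, cj_apply]
    simp only [Module.End.mul_apply]
    have h1 : ∀ u, ρ g⁻¹ (ρ g u) = u := fun u => by
      rw [← Module.End.mul_apply, ← map_mul, inv_mul_cancel, map_one, Module.End.one_apply]
    rw [h1, h1, hω, hω]
    ring

/-- Tate tensors and Tate forms in four variables. -/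
theorem tensor_iff (hnd : ∀ x, (∀ y, ω x y = 0) → x = 0)
    (hω : ∀ g x y, ω (ρ g x) (ρ g y) = χ g * ω x y) (t : End k V ⊗[k] End k V) :
    IsTateTensor ρ t ↔ IsTate ρ χ 2 (F4 ω t) := by
  constructor
  · rintro ⟨Δ, hΔ, h⟩
    refine ⟨Δ, hΔ, fun g hg v => ?_⟩
    have h1 := F4_cj hω g t v
    rw [h g hg] at h1
    exact h1
  · rintro ⟨Δ, hΔ, h⟩
    refine ⟨Δ, hΔ, fun g hg => ?_⟩
    rw [← sub_eq_zero]
    refine F4_inj ω hnd ?_
    rw [map_sub, sub_eq_zero]
    refine Fm.ext fun v => ?_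
    have h1 : ∀ u, ρ g (ρ g⁻¹ u) = u := fun u => by
      rw [← Module.End.mul_apply, ← map_mul, mul_inv_cancel, map_one, Module.End.one_apply]
    have h2 := F4_cj hω g t (fun l => ρ g⁻¹ (v l))
    have h3 : ev (F4 ω t) (fun l => ρ g (ρ g⁻¹ (v l))) =
        χ g ^ 2 * ev (F4 ω t) (fun l => ρ g⁻¹ (v l)) := h g hg _
    simp only [h1] at h2 h3
    rw [h2, h3]

/-- The form of a tensor is killed exactly when the tensor is. -/
theorem kills_F4_iff (hnd : ∀ x, (∀ y, ω x y = 0) → x = 0) {X : End k V}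
    (hX : ∀ u w, ω (X u) w + ω u (X w) = 0) (t : End k V ⊗[k] End k V) :
    Kills X (F4 ω t) ↔ adT X t = 0 := by
  rw [kills_iff (κ := Fin 2 × Fin 2) X (F4 ω t)]
  change dd X (F4 ω t) = 0 ↔ _
  rw [dd_F4 ω hX, neg_eq_zero]
  exact ⟨fun h => F4_inj ω hnd h, fun h => by rw [h, map_zero]⟩

end tate

section main

variable {ℓ : ℕ} [hℓ : Fact ℓ.Prime] {V Γ : Type} [AddCommGroup V] [Module ℚ_[ℓ] V]
  [FiniteDimensional ℚ_[ℓ] V] [Group Γ] {ρ : Representation ℚ_[ℓ] Γ V} {χ : Γ →* ℚ_[ℓ]}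
  {ω : V →ₗ[ℚ_[ℓ]] V →ₗ[ℚ_[ℓ]] ℚ_[ℓ]}

/-- Tate tensors are the tensors killed by the Lie algebra. -/
theorem tateTensor_iff (hnd : ∀ x, (∀ y, ω x y = 0) → x = 0)
    (hω : ∀ g x y, ω (ρ g x) (ρ g y) = χ g * ω x y) (t : End ℚ_[ℓ] V ⊗[ℚ_[ℓ]] End ℚ_[ℓ] V) :
    IsTateTensor ρ t ↔ ∀ X ∈ lieT ρ χ, adT X t = 0 := by
  rw [tensor_iff hnd hω]
  constructor
  · intro h X hX
    exact (kills_F4_iff hnd (lieT_sp ρ χ ω hω hX) t).1 (hX 2 _ h)
  · intro h
    exact tate_of_kills fun X hX => (kills_F4_iff hnd (lieT_sp ρ χ ω hω hX) t).2 (h X hX)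

variable (ρ) in
/-- The algebra of operators generated by the Tate tensors, acting on pairs of variables. -/
def tateAlg (κ : Type) [Fintype κ] [DecidableEq κ] : Subalgebra ℚ_[ℓ] (End ℚ_[ℓ] (Fm ℚ_[ℓ] V κ)) :=
  Algebra.adjoin ℚ_[ℓ] {F | ∃ a b : κ, ∃ t : End ℚ_[ℓ] V ⊗[ℚ_[ℓ]] End ℚ_[ℓ] V, a ≠ b ∧
    IsTateTensor ρ t ∧ F = act a b t}

theorem tateAlg_eq (hnd : ∀ x, (∀ y, ω x y = 0) → x = 0)
    (hω : ∀ g x y, ω (ρ g x) (ρ g y) = χ g * ω x y) (κ : Type) [Fintype κ] [DecidableEq κ] :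
    tateAlg ρ κ = alg κ (lieT ρ χ) := by
  unfold tateAlg alg
  congr 1
  ext F
  constructor
  · rintro ⟨a, b, t, hab, ht, rfl⟩
    exact ⟨a, b, t, hab, (tateTensor_iff hnd hω t).1 ht, rfl⟩
  · rintro ⟨a, b, t, hab, ht, rfl⟩
    exact ⟨a, b, t, hab, (tateTensor_iff hnd hω t).2 ht, rfl⟩

/-- **The projector onto the Tate forms.** -/
theorem exists_tate_projector (hnd : ∀ x, (∀ y, ω x y = 0) → x = 0)
    (hω : ∀ g x y, ω (ρ g x) (ρ g y) = χ g * ω x y) (hss : FiniteIndexSemisimple ρ) (m : ℕ) :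
    ∃ P ∈ tateAlg ρ (Fin m × Fin 2), P * P = P ∧
      ∀ φ : Fm ℚ_[ℓ] V (Fin m × Fin 2), P φ = φ ↔ IsTate ρ χ m φ := by
  have hκ : ∀ a : Fin m × Fin 2, ∃ b, a ≠ b := by
    rintro ⟨i, j⟩
    refine ⟨(i, j + 1), fun h => ?_⟩
    have h1 : j = j + 1 := congrArg Prod.snd h
    have h2 : ∀ j : Fin 2, j ≠ j + 1 := by decide
    exact h2 j h1
  obtain ⟨P, hP, hPP, h⟩ := exists_projector_form (κ := Fin m × Fin 2) (L := lieT ρ χ) hκ
    (fun x hx y hy => lieT_bracket ρ χ hx hy) (MT.traceNondeg hnd hω hss)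
    (fun z hz hc => central_ss hnd hω hss (bdd_bcr ρ) hz hc)
  refine ⟨P, by rw [tateAlg_eq hnd hω]; exact hP, hPP, fun φ => ?_⟩
  rw [h φ]
  constructor
  · intro h1
    exact tate_of_kills fun X hX => (kills_iff X φ).2 (h1 X hX)
  · intro h1 X hX
    exact (kills_iff X φ).1 (hX m φ h1)

end main

end

end Pool.Agent.K1H15.P1
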